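import Pool.Agent.Lib_helper60.N6S.J
import Pool.Agent.Lib_helper60.N6.K1

/-!
# The unit equation for a point of order six, `t = 1/3, -1/3, -1/5`, V: the classes
-/

set_option autoImplicit false
set_option linter.unusedSectionVars false
set_option linter.unusedSimpArgs false
set_option linter.unusedVariables false

namespace Pool.Agent.N6S

open Pool.Agent.TN Pool.Agent.KC72 Pool.Agent.N6

variable {k : Type*} [Field k] {F : Type*} [Field F] [Algebra k F] {t : k} {x y : F}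

lemma alg_D0 {F : Type*} [Field F] [CharZero F] {x y p q w : F}
    (he : y ^ 2 + (2 / 3) * x * y - (4 / 9) * y = x ^ 3 - (4 / 9) * x ^ 2)
    (hp : p = x - 4 / 9) (hq : q = x - 1 / 3) (hw : w = y - 1 / 3 * x)
    (h1 : x ≠ 0) (h2 : p ≠ 0) (h3 : q ≠ 0) (h4 : y ≠ 0) (h5 : w ≠ 0) :
    -((27 / 16) * x ^ 3 * p ^ 2 * w / (q ^ 2 * y ^ 2)) + (27 / 16) * p * y ^ 2 / (q * w) = 1 := by
  rw [← sub_eq_zero]
  have : -((27 / 16) * x ^ 3 * p ^ 2 * w / (q ^ 2 * y ^ 2)) + (27 / 16) * p * y ^ 2 / (q * w) - 1 = (-((27 / 16) * x ^ 3 * p ^ 2 * w ^ 2) + ((27 / 16) * p * q * y ^ 4) - (q ^ 2 * y ^ 2 * w)) / (q ^ 2 * y ^ 2 * w) := by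
    field_simp
    try ring
  rw [this, div_eq_zero_iff]
  left
  rw [hp, hq, hw]
  linear_combination ((3 / 16) * x ^ 4 - (9 / 8) * x ^ 3 * y + (27 / 16) * x ^ 2 * y ^ 2 - (1 / 12) * x ^ 3 + (5 / 8) * x ^ 2 * y - (21 / 16) * x * y ^ 2 - (1 / 12) * x * y + (1 / 4) * y ^ 2) * he

lemma BI_D0 [CharZero k] (hk : KdS 0 t) (h : G6 t x y) :
    BI t (3, 0, -3, 3, 0) (0, 3, -3, 0, 3) 2 1 x y := by
  obtain ⟨ht, ht1⟩ := KdS_t hk
  have hs : 3 * t = 1 := hk.1 rfl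
  have h1 := h.x_ne
  have h2 := h.xc_ne (t ^ 2 + t)
  have h3 := h.xc_ne t
  have h4 := h.y_ne
  have h5 := w_ne h
  have he := h.eq
  have : CharZero F := charZero_of_injective_algebraMap (algebraMap k F).injective
  have hBT : algebraMap k F (t ^ 2 + t) = algebraMap k F t ^ 2 + algebraMap k F t := by
    rw [map_add, map_pow]
  unfold BI
  rw [spec' ht ht1 h (inv_mul_cancel₀ (val_ne ht ht1 _ _)) (-2) 1 1 3 2 (-2) (-2) 1 (by decide),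
    spec' ht ht1 h (inv_mul_cancel₀ (val_ne ht ht1 _ _)) (-2) 1 (-2) 0 1 (-1) 2 (-1) (by decide)]
  unfold M
  have e1 : algebraMap k F t = 1 / 3 := by
    have h6 : (3 : F) * algebraMap k F t = 1 := by
      rw [← map_ofNat (algebraMap k F) 3, ← map_mul, hs, map_one]
    linear_combination h6 / 3
  have e2 : algebraMap k F (t ^ 2 + t) = 4 / 9 := by rw [hBT, e1]; norm_num
  rw [e1] at h3 h5 he ⊢
  rw [e2] at h2 he ⊢
  obtain ⟨p, hp⟩ : ∃ p, p = x - 4 / 9 := ⟨_, rfl⟩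
  obtain ⟨q, hq⟩ : ∃ q, q = x - 1 / 3 := ⟨_, rfl⟩
  obtain ⟨w, hw⟩ : ∃ w, w = y - 1 / 3 * x := ⟨_, rfl⟩
  rw [← hp] at h2
  rw [← hq] at h3
  rw [← hw] at h5
  have key := alg_D0 (by linear_combination he) hp hq hw h1 h2 h3 h4 h5
  simp only [← hp, ← hq, ← hw]
  refine Eq.trans ?_ key
  simp only [zpow_zero, zpow_one, zpow_neg, zpow_ofNat, pow_one, one_mul, mul_one, even_two,
    Even.neg_pow, one_pow]
  ring

lemma alg_D1 {F : Type*} [Field F] [CharZero F] {x y p q w : F}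
    (he : y ^ 2 + (4 / 3) * x * y - (-(2 / 9)) * y = x ^ 3 - (-(2 / 9)) * x ^ 2)
    (hp : p = x - -(2 / 9)) (hq : q = x - -(1 / 3)) (hw : w = y - -(1 / 3) * x)
    (h1 : x ≠ 0) (h2 : p ≠ 0) (h3 : q ≠ 0) (h4 : y ≠ 0) (h5 : w ≠ 0) :
    -((27 / 2) * p * w ^ 2 / (q * y)) + (27 / 2) * p ^ 2 * q * y / (w ^ 2) = 1 := by
  rw [← sub_eq_zero]
  have : -((27 / 2) * p * w ^ 2 / (q * y)) + (27 / 2) * p ^ 2 * q * y / (w ^ 2) - 1 = (-((27 / 2) * p * w ^ 4) + ((27 / 2) * p ^ 2 * q ^ 2 * y ^ 2) - (q * y * w ^ 2)) / (q * y * w ^ 2) := by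
    field_simp
    try ring
  rw [this, div_eq_zero_iff]
  left
  rw [hp, hq, hw]
  linear_combination (-(27 / 2) * x * y ^ 2 + (1 / 6) * x ^ 2 + 2 * x * y - 3 * y ^ 2 + (1 / 3) * y) * he

lemma BI_D1 [CharZero k] (hk : KdS 1 t) (h : G6 t x y) :
    BI t (0, 0, 0, 3, 0) (0, 3, 0, 0, 0) 2 4 x y := by
  obtain ⟨ht, ht1⟩ := KdS_t hk
  have hs : 3 * t = -1 := hk.2.1 rfl
  have h1 := h.x_ne
  have h2 := h.xc_ne (t ^ 2 + t)
  have h3 := h.xc_ne t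
  have h4 := h.y_ne
  have h5 := w_ne h
  have he := h.eq
  have : CharZero F := charZero_of_injective_algebraMap (algebraMap k F).injective
  have hBT : algebraMap k F (t ^ 2 + t) = algebraMap k F t ^ 2 + algebraMap k F t := by
    rw [map_add, map_pow]
  unfold BI
  rw [spec' ht ht1 h (inv_mul_cancel₀ (val_ne ht ht1 _ _)) (-1) (-1) (-1) 0 1 (-1) (-1) 2 (by decide),
    spec' ht ht1 h (inv_mul_cancel₀ (val_ne ht ht1 _ _)) (-1) (-1) 2 0 2 1 1 (-2) (by decide)]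
  unfold M
  have e1 : algebraMap k F t = -(1 / 3) := by
    have h6 : (3 : F) * algebraMap k F t = -1 := by
      rw [← map_ofNat (algebraMap k F) 3, ← map_mul, hs, map_neg, map_one]
    linear_combination h6 / 3
  have e2 : algebraMap k F (t ^ 2 + t) = -(2 / 9) := by rw [hBT, e1]; norm_num
  rw [e1] at h3 h5 he ⊢
  rw [e2] at h2 he ⊢
  obtain ⟨p, hp⟩ : ∃ p, p = x - -(2 / 9) := ⟨_, rfl⟩
  obtain ⟨q, hq⟩ : ∃ q, q = x - -(1 / 3) := ⟨_, rfl⟩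
  obtain ⟨w, hw⟩ : ∃ w, w = y - -(1 / 3) * x := ⟨_, rfl⟩
  rw [← hp] at h2
  rw [← hq] at h3
  rw [← hw] at h5
  have key := alg_D1 (by linear_combination he) hp hq hw h1 h2 h3 h4 h5
  simp only [← hp, ← hq, ← hw]
  refine Eq.trans ?_ key
  simp only [zpow_zero, zpow_one, zpow_neg, zpow_ofNat, pow_one, one_mul, mul_one, even_two,
    Even.neg_pow, one_pow]
  ring

lemma alg_D2 {F : Type*} [Field F] [CharZero F] {x y p q w : F}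
    (he : y ^ 2 + (6 / 5) * x * y - (-(4 / 25)) * y = x ^ 3 - (-(4 / 25)) * x ^ 2)
    (hp : p = x - -(4 / 25)) (hq : q = x - -(1 / 5)) (hw : w = y - -(1 / 5) * x)
    (h1 : x ≠ 0) (h2 : p ≠ 0) (h3 : q ≠ 0) (h4 : y ≠ 0) (h5 : w ≠ 0) :
    (5 / 16) * x ^ 5 * p ^ 2 / (q ^ 2 * y ^ 2 * w) + -((5 / 16) * y ^ 2 * w / (p * q ^ 3)) = 1 := by
  rw [← sub_eq_zero]
  have : (5 / 16) * x ^ 5 * p ^ 2 / (q ^ 2 * y ^ 2 * w) + -((5 / 16) * y ^ 2 * w / (p * q ^ 3)) - 1 = (((5 / 16) * x ^ 5 * p ^ 3 * q) + -((5 / 16) * y ^ 4 * w ^ 2) - (p * q ^ 3 * y ^ 2 * w)) / (p * q ^ 3 * y ^ 2 * w) := by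
    field_simp
    try ring
  rw [this, div_eq_zero_iff]
  left
  rw [hp, hq, hw]
  linear_combination (-(5 / 16) * x ^ 6 - (13 / 80) * x ^ 5 - (3 / 8) * x ^ 4 * y - (5 / 16) * x ^ 3 * y ^ 2 - (7 / 250) * x ^ 4 - (37 / 200) * x ^ 3 * y - (29 / 80) * x ^ 2 * y ^ 2 + (1 / 4) * x * y ^ 3 - (5 / 16) * y ^ 4 - (1 / 625) * x ^ 3 - (3 / 100) * x ^ 2 * y - (1 / 10) * x * y ^ 2 + (1 / 20) * y ^ 3 - (1 / 625) * x * y - (1 / 125) * y ^ 2) * he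

lemma BI_D2 [CharZero k] (hk : KdS 2 t) (h : G6 t x y) :
    BI t (5, 0, -5, 1, 0) (0, 1, -5, 0, 5) 2 1 x y := by
  obtain ⟨ht, ht1⟩ := KdS_t hk
  have hs : 5 * t = -1 := hk.2.2 rfl
  have h1 := h.x_ne
  have h2 := h.xc_ne (t ^ 2 + t)
  have h3 := h.xc_ne t
  have h4 := h.y_ne
  have h5 := w_ne h
  have he := h.eq
  have : CharZero F := charZero_of_injective_algebraMap (algebraMap k F).injective
  have hBT : algebraMap k F (t ^ 2 + t) = algebraMap k F t ^ 2 + algebraMap k F t := by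
    rw [map_add, map_pow]
  unfold BI
  rw [spec' ht ht1 h (inv_mul_cancel₀ (val_ne ht ht1 _ _)) (-2) 3 3 5 2 (-2) (-2) (-1) (by decide),
    spec' ht ht1 h (inv_mul_cancel₀ (val_ne ht ht1 _ _)) (-2) 3 (-2) 0 (-1) (-3) 2 1 (by decide)]
  unfold M
  have e1 : algebraMap k F t = -(1 / 5) := by
    have h6 : (5 : F) * algebraMap k F t = -1 := by
      rw [← map_ofNat (algebraMap k F) 5, ← map_mul, hs, map_neg, map_one]
    linear_combination h6 / 5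
  have e2 : algebraMap k F (t ^ 2 + t) = -(4 / 25) := by rw [hBT, e1]; norm_num
  rw [e1] at h3 h5 he ⊢
  rw [e2] at h2 he ⊢
  obtain ⟨p, hp⟩ : ∃ p, p = x - -(4 / 25) := ⟨_, rfl⟩
  obtain ⟨q, hq⟩ : ∃ q, q = x - -(1 / 5) := ⟨_, rfl⟩
  obtain ⟨w, hw⟩ : ∃ w, w = y - -(1 / 5) * x := ⟨_, rfl⟩
  rw [← hp] at h2
  rw [← hq] at h3
  rw [← hw] at h5
  have key := alg_D2 (by linear_combination he) hp hq hw h1 h2 h3 h4 h5
  simp only [← hp, ← hq, ← hw]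
  refine Eq.trans ?_ key
  simp only [zpow_zero, zpow_one, zpow_neg, zpow_ofNat, pow_one, one_mul, mul_one, even_two,
    Even.neg_pow, one_pow]
  ring

lemma alg_E2 {F : Type*} [Field F] [CharZero F] {x y p q w : F}
    (he : y ^ 2 + (6 / 5) * x * y - (-(4 / 25)) * y = x ^ 3 - (-(4 / 25)) * x ^ 2)
    (hp : p = x - -(4 / 25)) (hq : q = x - -(1 / 5)) (hw : w = y - -(1 / 5) * x)
    (h1 : x ≠ 0) (h2 : p ≠ 0) (h3 : q ≠ 0) (h4 : y ≠ 0) (h5 : w ≠ 0) :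
    (3125 / 16) * x * p ^ 2 * w ^ 3 / (q ^ 2 * y ^ 2) + -((3125 / 16) * p ^ 3 * q * y ^ 2 / (w ^ 3)) = 1 := by
  rw [← sub_eq_zero]
  have : (3125 / 16) * x * p ^ 2 * w ^ 3 / (q ^ 2 * y ^ 2) + -((3125 / 16) * p ^ 3 * q * y ^ 2 / (w ^ 3)) - 1 = (((3125 / 16) * x * p ^ 2 * w ^ 6) + -((3125 / 16) * p ^ 3 * q ^ 3 * y ^ 4) - (q ^ 2 * y ^ 2 * w ^ 3)) / (q ^ 2 * y ^ 2 * w ^ 3) := by
    field_simp
    try ring
  rw [this, div_eq_zero_iff]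
  left
  rw [hp, hq, hw]
  linear_combination ((3125 / 16) * x ^ 3 * y ^ 4 - (1 / 80) * x ^ 6 - (3 / 8) * x ^ 5 * y - (75 / 16) * x ^ 4 * y ^ 2 - (125 / 4) * x ^ 3 * y ^ 3 + (125 / 2) * x ^ 2 * y ^ 4 - (1 / 500) * x ^ 5 - (3 / 40) * x ^ 4 * y - (97 / 80) * x ^ 3 * y ^ 2 - 11 * x ^ 2 * y ^ 3 + 5 * x * y ^ 4 - (1 / 500) * x ^ 3 * y - (7 / 100) * x ^ 2 * y ^ 2 - (6 / 5) * x * y ^ 3 - (1 / 25) * y ^ 3) * he

lemma BI_E2 [CharZero k] (hk : KdS 2 t) (h : G6 t x y) :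
    BI t (1, 0, -1, 5, 0) (0, 5, -1, 0, 1) 2 1 x y := by
  obtain ⟨ht, ht1⟩ := KdS_t hk
  have hs : 5 * t = -1 := hk.2.2 rfl
  have h1 := h.x_ne
  have h2 := h.xc_ne (t ^ 2 + t)
  have h3 := h.xc_ne t
  have h4 := h.y_ne
  have h5 := w_ne h
  have he := h.eq
  have : CharZero F := charZero_of_injective_algebraMap (algebraMap k F).injective
  have hBT : algebraMap k F (t ^ 2 + t) = algebraMap k F t ^ 2 + algebraMap k F t := by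
    rw [map_add, map_pow]
  unfold BI
  rw [spec' ht ht1 h (inv_mul_cancel₀ (val_ne ht ht1 _ _)) (-2) (-1) (-1) 1 2 (-2) (-2) 3 (by decide),
    spec' ht ht1 h (inv_mul_cancel₀ (val_ne ht ht1 _ _)) (-2) (-1) (-2) 0 3 1 2 (-3) (by decide)]
  unfold M
  have e1 : algebraMap k F t = -(1 / 5) := by
    have h6 : (5 : F) * algebraMap k F t = -1 := by
      rw [← map_ofNat (algebraMap k F) 5, ← map_mul, hs, map_neg, map_one]
    linear_combination h6 / 5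
  have e2 : algebraMap k F (t ^ 2 + t) = -(4 / 25) := by rw [hBT, e1]; norm_num
  rw [e1] at h3 h5 he ⊢
  rw [e2] at h2 he ⊢
  obtain ⟨p, hp⟩ : ∃ p, p = x - -(4 / 25) := ⟨_, rfl⟩
  obtain ⟨q, hq⟩ : ∃ q, q = x - -(1 / 5) := ⟨_, rfl⟩
  obtain ⟨w, hw⟩ : ∃ w, w = y - -(1 / 5) * x := ⟨_, rfl⟩
  rw [← hp] at h2
  rw [← hq] at h3
  rw [← hw] at h5
  have key := alg_E2 (by linear_combination he) hp hq hw h1 h2 h3 h4 h5
  simp only [← hp, ← hq, ← hw]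
  refine Eq.trans ?_ key
  simp only [zpow_zero, zpow_one, zpow_neg, zpow_ofNat, pow_one, one_mul, mul_one, even_two,
    Even.neg_pow, one_pow]
  ring

/-- the classes for `t = 1 / 3`: sign and exponents of `x`, `x - b`, `x - t`, `y`, `y - t x`, `2`, `3` in
`f` and in `1 - f` -/
def clsS0 : List (Mo × Mo) :=
  [((false, [1, 0, 0, 0, 0, -2, 2]), (true, [0, 1, 0, 0, 0, -2, 2])),
    ((false, [-2, 0, 0, 1, 0, 0, 0]), (false, [-2, -1, 0, 1, 1, 0, 0])),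
    ((false, [1, -1, 0, -1, 1, 0, 0]), (false, [0, -1, -1, -1, 2, 0, -1])),
    ((false, [0, 1, -1, 0, 0, -2, 1]), (false, [1, 0, -1, 0, 0, -2, 0])),
    ((false, [0, -1, 1, 1, -1, 0, 0]), (true, [0, 0, 1, 1, -2, 0, -1])),
    ((true, [0, 1, 0, -1, 0, 0, 0]), (false, [1, 1, 1, -1, -1, 0, 0])),
    ((false, [1, 0, 0, 0, 0, 0, 1]), (true, [0, 0, 1, 0, 0, 0, 1])),
    ((false, [-2, 0, 0, 1, 0, 2, -1]), (false, [-2, 0, -1, 0, 2, 0, 0])),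
    ((false, [1, -1, 0, -1, 1, 2, -1]), (true, [0, -2, -1, 0, 2, 0, -1])),
    ((false, [0, 1, -1, 0, 0, 0, 0]), (false, [0, 0, -1, 0, 0, 0, -2])),
    ((false, [0, -1, 1, 1, -1, 2, -1]), (true, [2, 0, 1, 0, -2, 0, -1])),
    ((true, [0, 1, 0, -1, 0, 2, -1]), (false, [0, 2, 1, 0, -2, 0, 0])),
    ((false, [-1, 0, 0, 1, 0, 0, 1]), (true, [-1, 0, 0, 0, 1, 0, 1])),
    ((false, [-1, -1, 0, 0, 1, 2, -1]), (false, [-1, -1, -1, 0, 2, 0, 0])),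
    ((false, [1, 0, -1, -1, 1, 0, 0]), (false, [0, -1, -1, 0, 1, 0, -1])),
    ((true, [3, 2, -2, -2, 1, -4, 3]), (false, [0, 1, -1, 2, -1, -4, 3]))]

set_option maxRecDepth 100000 in
lemma chkS0 : ChkS 0 clsS0 := by
  decide +kernel

set_option maxRecDepth 100000 in
lemma clsS0_eq : clsS0 = ([0, 1, 2, 3, 4, 5] : List (Fin 6)).map (BCS 0 (1, 0, 0, 0, 1) (0, 1, 0, 1, 0) 2 1) ++
    ([0, 1, 2, 3, 4, 5] : List (Fin 6)).map (BCS 0 (1, 0, 0, 0, 1) (0, 0, 2, 0, 0) 3 1) ++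
    ([0, 1, 2] : List (Fin 6)).map (BCS 0 (-1, 1, 0, 0, 1) (-1, 0, 1, 1, 0) 3 2) ++
    ([0] : List (Fin 6)).map (BCS 0 (3, 0, -3, 3, 0) (0, 3, -3, 0, 3) 2 1) := by
  decide +kernel

theorem solsS0 [CharZero k] (hk : KdS 0 t) (h : G6 t x y) : Sols (glS 0 t x y) clsS0 := by
  intro p hp
  rw [clsS0_eq] at hp
  simp only [List.mem_append, List.mem_map] at hp
  rcases hp with ((⟨i, -, rfl⟩ | ⟨i, -, rfl⟩) | ⟨i, -, rfl⟩) | ⟨i, -, rfl⟩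
  · exact BCS_sol hk h (fun _ _ h => BI_A (KdS_t hk).1 (KdS_t hk).2 h) i
  · exact BCS_sol hk h (fun _ _ h => BI_B (KdS_t hk).1 (KdS_t hk).2 h) i
  · exact BCS_sol hk h (fun _ _ h => BI_C (KdS_t hk).1 (KdS_t hk).2 h) i
  · exact BCS_sol hk h (fun _ _ h => BI_D0 hk h) i

/-- **the unit equation for `t = 1 / 3`** -/
theorem unit_eqS0 [CharZero k] (hk : KdS 0 t) (h : G6 t x y) {c c' : k} (hc : c ≠ 0)
    (hc' : c' ≠ 0) {a₀ a₁ a₂ a₃ a₄ b₀ b₁ b₂ b₃ b₄ : ℤ}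
    (hu : algebraMap k F c * M t x y a₀ a₁ a₂ a₃ a₄ +
      algebraMap k F c' * M t x y b₀ b₁ b₂ b₃ b₄ = 1) :
    (∃ s : k, algebraMap k F c * M t x y a₀ a₁ a₂ a₃ a₄ = algebraMap k F s) ∨
      TcS 0 clsS0 t x y (algebraMap k F c * M t x y a₀ a₁ a₂ a₃ a₄) :=
  unit_eqcS hk h (solsS0 hk h) chkS0 hc hc' hu

/-- the classes for `t = -(1 / 3)`: sign and exponents of `x`, `x - b`, `x - t`, `y`, `y - t x`, `2`, `3` in
`f` and in `1 - f` -/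
def clsS1 : List (Mo × Mo) :=
  [((true, [1, 0, 0, 0, 0, -1, 2]), (false, [0, 1, 0, 0, 0, -1, 2])),
    ((false, [-2, 0, 0, 1, 0, 0, 0]), (false, [-2, -1, 0, 1, 1, 0, 0])),
    ((false, [1, -1, 0, -1, 1, 0, 0]), (true, [0, -1, -1, -1, 2, 0, -1])),
    ((false, [0, 1, -1, 0, 0, -1, 1]), (true, [1, 0, -1, 0, 0, -1, 0])),
    ((false, [0, -1, 1, 1, -1, 0, 0]), (false, [0, 0, 1, 1, -2, 0, -1])),
    ((true, [0, 1, 0, -1, 0, 0, 0]), (false, [1, 1, 1, -1, -1, 0, 0])),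
    ((true, [1, 0, 0, 0, 0, 0, 1]), (false, [0, 0, 1, 0, 0, 0, 1])),
    ((false, [-2, 0, 0, 1, 0, 1, -1]), (false, [-2, 0, -1, 0, 2, 0, 0])),
    ((false, [1, -1, 0, -1, 1, 1, -1]), (false, [0, -2, -1, 0, 2, 0, -1])),
    ((false, [0, 1, -1, 0, 0, 0, 0]), (false, [0, 0, -1, 0, 0, 0, -2])),
    ((false, [0, -1, 1, 1, -1, 1, -1]), (false, [2, 0, 1, 0, -2, 0, -1])),
    ((true, [0, 1, 0, -1, 0, 1, -1]), (false, [0, 2, 1, 0, -2, 0, 0])),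
    ((true, [-1, 0, 0, 1, 0, 0, 1]), (false, [-1, 0, 0, 0, 1, 0, 1])),
    ((false, [-1, -1, 0, 0, 1, 1, -1]), (false, [-1, -1, -1, 0, 2, 0, 0])),
    ((false, [1, 0, -1, -1, 1, 0, 0]), (true, [0, -1, -1, 0, 1, 0, -1])),
    ((true, [0, 1, -1, -1, 2, -1, 3]), (false, [0, 2, 1, 1, -2, -1, 3])),
    ((true, [-3, -2, -1, 2, 2, 0, 0]), (false, [-3, -1, 1, 1, 1, 1, 0]))]

set_option maxRecDepth 100000 in
lemma chkS1 : ChkS 1 clsS1 := by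
  decide +kernel

set_option maxRecDepth 100000 in
lemma clsS1_eq : clsS1 = ([0, 1, 2, 3, 4, 5] : List (Fin 6)).map (BCS 1 (1, 0, 0, 0, 1) (0, 1, 0, 1, 0) 2 1) ++
    ([0, 1, 2, 3, 4, 5] : List (Fin 6)).map (BCS 1 (1, 0, 0, 0, 1) (0, 0, 2, 0, 0) 3 1) ++
    ([0, 1, 2] : List (Fin 6)).map (BCS 1 (-1, 1, 0, 0, 1) (-1, 0, 1, 1, 0) 3 2) ++
    ([0, 1] : List (Fin 6)).map (BCS 1 (0, 0, 0, 3, 0) (0, 3, 0, 0, 0) 2 4) := by
  decide +kernel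

theorem solsS1 [CharZero k] (hk : KdS 1 t) (h : G6 t x y) : Sols (glS 1 t x y) clsS1 := by
  intro p hp
  rw [clsS1_eq] at hp
  simp only [List.mem_append, List.mem_map] at hp
  rcases hp with ((⟨i, -, rfl⟩ | ⟨i, -, rfl⟩) | ⟨i, -, rfl⟩) | ⟨i, -, rfl⟩
  · exact BCS_sol hk h (fun _ _ h => BI_A (KdS_t hk).1 (KdS_t hk).2 h) i
  · exact BCS_sol hk h (fun _ _ h => BI_B (KdS_t hk).1 (KdS_t hk).2 h) i
  · exact BCS_sol hk h (fun _ _ h => BI_C (KdS_t hk).1 (KdS_t hk).2 h) i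
  · exact BCS_sol hk h (fun _ _ h => BI_D1 hk h) i

/-- **the unit equation for `t = -(1 / 3)`** -/
theorem unit_eqS1 [CharZero k] (hk : KdS 1 t) (h : G6 t x y) {c c' : k} (hc : c ≠ 0)
    (hc' : c' ≠ 0) {a₀ a₁ a₂ a₃ a₄ b₀ b₁ b₂ b₃ b₄ : ℤ}
    (hu : algebraMap k F c * M t x y a₀ a₁ a₂ a₃ a₄ +
      algebraMap k F c' * M t x y b₀ b₁ b₂ b₃ b₄ = 1) :
    (∃ s : k, algebraMap k F c * M t x y a₀ a₁ a₂ a₃ a₄ = algebraMap k F s) ∨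
      TcS 1 clsS1 t x y (algebraMap k F c * M t x y a₀ a₁ a₂ a₃ a₄) :=
  unit_eqcS hk h (solsS1 hk h) chkS1 hc hc' hu

/-- the classes for `t = -(1 / 5)`: sign and exponents of `x`, `x - b`, `x - t`, `y`, `y - t x`, `2`, `5` in
`f` and in `1 - f` -/
def clsS2 : List (Mo × Mo) :=
  [((true, [1, 0, 0, 0, 0, -2, 2]), (false, [0, 1, 0, 0, 0, -2, 2])),
    ((false, [-2, 0, 0, 1, 0, 0, 0]), (false, [-2, -1, 0, 1, 1, 0, 0])),
    ((false, [1, -1, 0, -1, 1, 0, 0]), (true, [0, -1, -1, -1, 2, 0, -1])),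
    ((false, [0, 1, -1, 0, 0, -2, 1]), (true, [1, 0, -1, 0, 0, -2, 0])),
    ((false, [0, -1, 1, 1, -1, 0, 0]), (false, [0, 0, 1, 1, -2, 0, -1])),
    ((true, [0, 1, 0, -1, 0, 0, 0]), (false, [1, 1, 1, -1, -1, 0, 0])),
    ((true, [1, 0, 0, 0, 0, 0, 1]), (false, [0, 0, 1, 0, 0, 0, 1])),
    ((false, [-2, 0, 0, 1, 0, 2, -1]), (false, [-2, 0, -1, 0, 2, 0, 0])),
    ((false, [1, -1, 0, -1, 1, 2, -1]), (false, [0, -2, -1, 0, 2, 0, -1])),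
    ((false, [0, 1, -1, 0, 0, 0, 0]), (false, [0, 0, -1, 0, 0, 0, -2])),
    ((false, [0, -1, 1, 1, -1, 2, -1]), (false, [2, 0, 1, 0, -2, 0, -1])),
    ((true, [0, 1, 0, -1, 0, 2, -1]), (false, [0, 2, 1, 0, -2, 0, 0])),
    ((true, [-1, 0, 0, 1, 0, 0, 1]), (false, [-1, 0, 0, 0, 1, 0, 1])),
    ((false, [-1, -1, 0, 0, 1, 2, -1]), (false, [-1, -1, -1, 0, 2, 0, 0])),
    ((false, [1, 0, -1, -1, 1, 0, 0]), (true, [0, -1, -1, 0, 1, 0, -1])),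
    ((false, [5, 2, -2, -2, -1, -4, 1]), (true, [0, -1, -3, 2, 1, -4, 1])),
    ((false, [1, 2, -2, -2, 3, -4, 5]), (true, [0, 3, 1, 2, -3, -4, 5]))]

set_option maxRecDepth 100000 in
lemma chkS2 : ChkS 2 clsS2 := by
  decide +kernel

set_option maxRecDepth 100000 in
lemma clsS2_eq : clsS2 = ([0, 1, 2, 3, 4, 5] : List (Fin 6)).map (BCS 2 (1, 0, 0, 0, 1) (0, 1, 0, 1, 0) 2 1) ++
    ([0, 1, 2, 3, 4, 5] : List (Fin 6)).map (BCS 2 (1, 0, 0, 0, 1) (0, 0, 2, 0, 0) 3 1) ++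
    ([0, 1, 2] : List (Fin 6)).map (BCS 2 (-1, 1, 0, 0, 1) (-1, 0, 1, 1, 0) 3 2) ++
    ([0] : List (Fin 6)).map (BCS 2 (5, 0, -5, 1, 0) (0, 1, -5, 0, 5) 2 1) ++
    ([0] : List (Fin 6)).map (BCS 2 (1, 0, -1, 5, 0) (0, 5, -1, 0, 1) 2 1) := by
  decide +kernel

theorem solsS2 [CharZero k] (hk : KdS 2 t) (h : G6 t x y) : Sols (glS 2 t x y) clsS2 := by
  intro p hp
  rw [clsS2_eq] at hp
  simp only [List.mem_append, List.mem_map] at hp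
  rcases hp with (((⟨i, -, rfl⟩ | ⟨i, -, rfl⟩) | ⟨i, -, rfl⟩) | ⟨i, -, rfl⟩) | ⟨i, -, rfl⟩
  · exact BCS_sol hk h (fun _ _ h => BI_A (KdS_t hk).1 (KdS_t hk).2 h) i
  · exact BCS_sol hk h (fun _ _ h => BI_B (KdS_t hk).1 (KdS_t hk).2 h) i
  · exact BCS_sol hk h (fun _ _ h => BI_C (KdS_t hk).1 (KdS_t hk).2 h) i
  · exact BCS_sol hk h (fun _ _ h => BI_D2 hk h) i
  · exact BCS_sol hk h (fun _ _ h => BI_E2 hk h) i

/-- **the unit equation for `t = -(1 / 5)`** -/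
theorem unit_eqS2 [CharZero k] (hk : KdS 2 t) (h : G6 t x y) {c c' : k} (hc : c ≠ 0)
    (hc' : c' ≠ 0) {a₀ a₁ a₂ a₃ a₄ b₀ b₁ b₂ b₃ b₄ : ℤ}
    (hu : algebraMap k F c * M t x y a₀ a₁ a₂ a₃ a₄ +
      algebraMap k F c' * M t x y b₀ b₁ b₂ b₃ b₄ = 1) :
    (∃ s : k, algebraMap k F c * M t x y a₀ a₁ a₂ a₃ a₄ = algebraMap k F s) ∨
      TcS 2 clsS2 t x y (algebraMap k F c * M t x y a₀ a₁ a₂ a₃ a₄) :=
  unit_eqcS hk h (solsS2 hk h) chkS2 hc hc' hu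

end Pool.Agent.N6S
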