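import Pool.Agent.Lib_helper60.N6S.G
import Pool.Agent.Lib_helper60.N6.J

/-!
# The unit equation for a point of order six, `t = 1/3, -1/3, -1/5`, IV: the framework
-/

set_option autoImplicit false
set_option linter.unusedSectionVars false
set_option linter.unusedSimpArgs false
set_option linter.unusedVariables false

namespace Pool.Agent.N6S

open Pool.Agent.TN Pool.Agent.KC72 Pool.Agent.N6

variable {k : Type*} [Field k] {F : Type*} [Field F] [Algebra k F] {t : k} {x y : F}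

/-- the second prime -/
def pr (κ : Fin 3) : ℕ := if κ = 2 then 5 else 3

/-- the generators -/
noncomputable def glS (κ : Fin 3) (t : k) (x y : F) : List F :=
  [x, x - algebraMap k F (t ^ 2 + t), x - algebraMap k F t, y, y - algebraMap k F t * x, 2,
    (pr κ : F)]

lemma pr_ne {K : Type*} [Field K] [CharZero K] (κ : Fin 3) : (pr κ : K) ≠ 0 := by
  fin_cases κ
  · show ((3 : ℕ) : K) ≠ 0; norm_num
  · show ((3 : ℕ) : K) ≠ 0; norm_num
  · show ((5 : ℕ) : K) ≠ 0; norm_num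

lemma glS_ne [CharZero k] (κ : Fin 3) (h : G6 t x y) : ∀ z ∈ glS κ t x y, z ≠ 0 := by
  intro z hz
  haveI : CharZero F := charZero_of_injective_algebraMap (algebraMap k F).injective
  simp only [glS, List.mem_cons, List.not_mem_nil, or_false] at hz
  rcases hz with rfl | rfl | rfl | rfl | rfl | rfl | rfl
  · exact h.x_ne
  · exact h.xc_ne (t ^ 2 + t)
  · exact h.xc_ne t
  · exact h.y_ne
  · exact w_ne h
  · exact two_ne_zero
  · exact pr_ne κ

/-- `b = (-1)^bsS 2^b2S p^(-2)` -/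
def b2S : Fin 3 → ℤ := ![2, 1, 2]
/-- the sign of `b` and of `t` -/
def bsS : Fin 3 → ℤ := ![0, 1, 1]

lemma KdS_bt [CharZero k] {κ : Fin 3} (hk : KdS κ t) :
    t ^ 2 + t = (-1) ^ bsS κ * 2 ^ b2S κ * (pr κ : k) ^ (-2 : ℤ) ∧
      t = (-1) ^ bsS κ * (pr κ : k) ^ (-1 : ℤ) := by
  have h2 : (2 : k) ≠ 0 := two_ne_zero
  have h3 : (3 : k) ≠ 0 := three_ne_zero
  have h5 : (5 : k) ≠ 0 := by norm_num
  obtain ⟨k0, k1, k2⟩ := hk
  fin_cases κ
  · have h := k0 rfl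
    have ht : t = 1 / 3 := by rw [eq_div_iff h3]; linear_combination h
    subst ht
    constructor
    · show (1 / 3 : k) ^ 2 + 1 / 3 = (-1) ^ (0 : ℤ) * 2 ^ (2 : ℤ) * ((3 : ℕ) : k) ^ (-2 : ℤ)
      norm_num
    · show (1 / 3 : k) = (-1) ^ (0 : ℤ) * ((3 : ℕ) : k) ^ (-1 : ℤ)
      norm_num
  · have h := k1 rfl
    have ht : t = -1 / 3 := by rw [eq_div_iff h3]; linear_combination h
    subst ht
    constructor
    · show (-1 / 3 : k) ^ 2 + -1 / 3 = (-1) ^ (1 : ℤ) * 2 ^ (1 : ℤ) * ((3 : ℕ) : k) ^ (-2 : ℤ)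
      norm_num
    · show (-1 / 3 : k) = (-1) ^ (1 : ℤ) * ((3 : ℕ) : k) ^ (-1 : ℤ)
      norm_num
  · have h := k2 rfl
    have ht : t = -1 / 5 := by rw [eq_div_iff h5]; linear_combination h
    subst ht
    constructor
    · show (-1 / 5 : k) ^ 2 + -1 / 5 = (-1) ^ (1 : ℤ) * 2 ^ (2 : ℤ) * ((5 : ℕ) : k) ^ (-2 : ℤ)
      norm_num
    · show (-1 / 5 : k) = (-1) ^ (1 : ℤ) * ((5 : ℕ) : k) ^ (-1 : ℤ)
      norm_num

/-- a monomial in the `x(z + iP)` with value one at the `j`-th point -/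
def FES (κ : Fin 3) (w : Fin 6 → ℤ) (j : Fin 6) : Mo :=
  (decide ((bsS κ * (S w 0 - S w j) + bsS κ * (w 3 - w (j + 3)) + (w 5 - w (j + 5))) % 2 = 1),
    [w 0 - 2 * w 1 + w 2, -w 2 + w 3 - w 4 + w 5, -w 3 + w 4, w 1 - w 2 + w 4 - w 5, w 2 - w 4,
      b2S κ * (S w 0 - S w j), -2 * (S w 0 - S w j) - (w 3 - w (j + 3))])

lemma ev_FES [CharZero k] {κ : Fin 3} (hk : KdS κ t)
    (h : G6 t x y) {c : k} {w : Fin 6 → ℤ} {j : Fin 6} (hv : c * val t w j = 1) :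
    algebraMap k F c * mon t x y w = ev (glS κ t x y) (FES κ w j) := by
  obtain ⟨ht, ht1⟩ := KdS_t hk
  haveI : CharZero F := charZero_of_injective_algebraMap (algebraMap k F).injective
  have hm : (-1 : F) ≠ 0 := neg_ne_zero.mpr one_ne_zero
  have h2 : (2 : F) ≠ 0 := two_ne_zero
  have hp : (pr κ : F) ≠ 0 := pr_ne κ
  obtain ⟨hb, ht'⟩ := KdS_bt hk
  have hB : algebraMap k F (t ^ 2 + t) = (-1) ^ bsS κ * 2 ^ b2S κ * (pr κ : F) ^ (-2 : ℤ) := by
    rw [hb, map_mul, map_mul, map_zpow₀, map_zpow₀, map_zpow₀, map_neg, map_one, map_ofNat,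
      map_natCast]
  have hT : algebraMap k F t = (-1) ^ bsS κ * (pr κ : F) ^ (-1 : ℤ) := by
    conv_lhs => rw [ht']
    rw [map_mul, map_zpow₀, map_zpow₀, map_neg, map_one, map_natCast]
  rw [spec ht ht1 h hv]
  unfold FES ev
  rw [sgn_zpow]
  simp only [glS, evl_cons, evl_nil_left, mul_one]
  unfold M
  generalize S w 0 - S w j = n₁
  generalize w 3 - w (j + 3) = n₂
  generalize w 5 - w (j + 5) = n₃
  generalize x ^ (w 0 - 2 * w 1 + w 2) = X0
  generalize (x - algebraMap k F (t ^ 2 + t)) ^ (-w 2 + w 3 - w 4 + w 5) = X1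
  generalize (x - algebraMap k F t) ^ (-w 3 + w 4) = X2
  generalize y ^ (w 1 - w 2 + w 4 - w 5) = X3
  generalize (y - algebraMap k F t * x) ^ (w 2 - w 4) = X4
  rw [hB, hT]
  generalize (pr κ : F) = p at hp ⊢
  rw [mul_zpow, mul_zpow, mul_zpow, ← zpow_mul, ← zpow_mul, ← zpow_mul, ← zpow_mul, ← zpow_mul,
    zpow_add₀ hm, zpow_add₀ hm, zpow_sub₀ hp, neg_one_mul, zpow_neg]
  ring

/-- the classes of solutions -/
def TcS (κ : Fin 3) (cls : List (Mo × Mo)) (t : k) (x y f : F) : Prop :=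
  ∃ c ∈ cls, Orb (ev (glS κ t x y) c.1) f

/-- the check -/
def ChkS (κ : Fin 3) (cls : List (Mo × Mo)) : Prop :=
  ∀ i : Fin 6, ∀ p ∈ solsIS κ ++ solsIIS κ, ∃ j : Fin 6, 0 < mm (eo p.2) j ∧
    ∃ c ∈ cls, ∃ σ : Fin 6, eqM (orb6 c.1 c.2 σ) (FES κ (rw' i (eo p.1)) (j + i)) = true

instance (κ : Fin 3) (cls : List (Mo × Mo)) : Decidable (ChkS κ cls) := by
  unfold ChkS; infer_instance

theorem TTcS [CharZero k] {κ : Fin 3} (hk : KdS κ t)
    (h : G6 t x y) {cls : List (Mo × Mo)} (H : Sols (glS κ t x y) cls) (hc : ChkS κ cls) :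
    TTS κ t x y (TcS κ cls t x y) where
  inv f _ _ hf := by
    obtain ⟨c, h1, h2⟩ := hf
    have hg := glS_ne κ h
    refine ⟨c, h1, Orb.inv (ev_ne hg _) ?_ h2⟩
    intro h3
    have := H c h1
    apply ev_ne hg c.2
    linear_combination this - h3
  sub f _ _ hf := by
    obtain ⟨c, h1, h2⟩ := hf
    have hg := glS_ne κ h
    refine ⟨c, h1, Orb.sub (ev_ne hg _) ?_ h2⟩
    intro h3
    have := H c h1
    apply ev_ne hg c.2
    linear_combination this - h3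
  sol i x' y' h' hX c c' u v huv hA hu := by
    obtain ⟨j, h1, d, hd, σ, hσ⟩ := hc i (u, v) (List.mem_append.mpr huv)
    have hg := glS_ne κ h
    have h2 : c * val t (eo u) j = 1 := (hA.one j).vl h1
    rw [mon_rw hX, ev_FES hk h (c := c) (j := j + i) (by rw [val_rw]; exact h2),
      ← ev_eqM hg hσ]
    exact ⟨d, hd, orb6_Orb hg (H d hd) σ⟩

/-- the class of a base identity translated by `i` -/
def BCS (κ : Fin 3) (u v : ℤ × ℤ × ℤ × ℤ × ℤ) (j j' i : Fin 6) : Mo × Mo :=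
  (FES κ (rw' i (eo u)) (j + i), FES κ (rw' i (eo v)) (j' + i))

lemma BCS_sol [CharZero k] {κ : Fin 3} (hk : KdS κ t)
    (h : G6 t x y) {u v : ℤ × ℤ × ℤ × ℤ × ℤ} {j j' : Fin 6}
    (hB : ∀ x y : F, G6 t x y → BI t u v j j' x y) (i : Fin 6) :
    ev (glS κ t x y) (BCS κ u v j j' i).1 + ev (glS κ t x y) (BCS κ u v j j' i).2 = 1 := by
  obtain ⟨ht, ht1⟩ := KdS_t hk
  obtain ⟨x', y', -, hR⟩ := rot ht ht1 h i.val
  obtain ⟨h', hX⟩ := hR inferInstance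
  have hi : Fin.ofNat 6 i.val = i := by
    apply Fin.ext
    simp only [Fin.ofNat]
    exact Nat.mod_eq_of_lt i.isLt
  rw [hi] at hX
  have h1 := hB x' y' h'
  unfold BI at h1
  rw [mon_rw hX, mon_rw hX, ev_FES hk h (j := j + i) (by
      rw [val_rw]; exact inv_mul_cancel₀ (val_ne ht ht1 _ _)),
    ev_FES hk h (j := j' + i) (by
      rw [val_rw]; exact inv_mul_cancel₀ (val_ne ht ht1 _ _))] at h1
  exact h1

/-- **the unit equation**, from the classes -/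
theorem unit_eqcS [CharZero k] {κ : Fin 3} (hk : KdS κ t) (h : G6 t x y)
    {cls : List (Mo × Mo)} (H : Sols (glS κ t x y) cls)
    (hcl : ChkS κ cls) {c c' : k} (hc : c ≠ 0) (hc' : c' ≠ 0)
    {a₀ a₁ a₂ a₃ a₄ b₀ b₁ b₂ b₃ b₄ : ℤ}
    (hu : algebraMap k F c * M t x y a₀ a₁ a₂ a₃ a₄ +
      algebraMap k F c' * M t x y b₀ b₁ b₂ b₃ b₄ = 1) :
    (∃ s : k, algebraMap k F c * M t x y a₀ a₁ a₂ a₃ a₄ = algebraMap k F s) ∨
      TcS κ cls t x y (algebraMap k F c * M t x y a₀ a₁ a₂ a₃ a₄) := by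
  obtain ⟨ht, ht1⟩ := KdS_t hk
  obtain ⟨e, d, hd, h1⟩ := M_mon ht ht1 h a₀ a₁ a₂ a₃ a₄
  obtain ⟨e', d', hd', h2⟩ := M_mon ht ht1 h b₀ b₁ b₂ b₃ b₄
  rw [h1, h2, ← mul_assoc, ← mul_assoc, ← map_mul, ← map_mul] at hu
  rw [h1, ← mul_assoc, ← map_mul]
  exact masterS hk h (TTcS hk h H hcl) (mul_ne_zero hc hd) (mul_ne_zero hc' hd') hu

end Pool.Agent.N6S
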