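import Pool.Agent.Lib_helper60.N6S.K
import Pool.Agent.Lib_helper60.X10.H
import Pool.Agent.Lib_helper76.UE6.F6

/-!
# The unit equation for a point of order six, `t = 1/3, -1/3, -1/5`, VI: the interface
-/

set_option autoImplicit false
set_option linter.unusedSectionVars false
set_option linter.unusedSimpArgs false
set_option linter.unusedVariables false

namespace Pool.Agent.N6S

open Pool.Agent.TN Pool.Agent.KC72 Pool.Agent.N6

section gens

variable {k : Type*} [Field k] {F : Type*} [Field F] [Algebra k F] {t : k} {x y : F}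

/-- the generators -/
noncomputable def G6S (κ : Fin 3) (t : k) (x y : F) : Fin 7 → F :=
  ![x, x - algebraMap k F (t ^ 2 + t), x - algebraMap k F t, y, y - algebraMap k F t * x, 2,
    (pr κ : F)]

lemma ofFn_G6S (κ : Fin 3) : List.ofFn (G6S κ t x y) = glS κ t x y := by
  simp only [List.ofFn_succ, List.ofFn_zero]
  rfl

lemma G6S_ne [CharZero k] (κ : Fin 3) (h : G6 t x y) (i : Fin 7) : G6S κ t x y i ≠ 0 := by
  apply glS_ne κ h
  rw [← ofFn_G6S, List.mem_ofFn]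
  exact ⟨i, rfl⟩

lemma G6S_const (κ : Fin 3) (i : Fin 7) (hi : 5 ≤ i.val) :
    ∃ c : k, G6S κ t x y i = algebraMap k F c := by
  have h5 : i = 5 ∨ i = 6 := by
    have : i.val < 7 := i.isLt
    rcases (by omega : i.val = 5 ∨ i.val = 6) with h | h
    · exact Or.inl (Fin.ext h)
    · exact Or.inr (Fin.ext h)
  rcases h5 with rfl | rfl
  · exact ⟨2, by rw [map_ofNat]; rfl⟩
  · exact ⟨(pr κ : k), by rw [map_natCast]; rfl⟩

/-- the five functions are multiplicatively independent modulo constants -/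
lemma G6S_hM [CharZero k] {κ : Fin 3} (hk : KdS κ t) (h : G6 t x y) (e : Fin 5 → ℤ) (c : k)
    (hc : c ≠ 0) (he : ∏ i, G6S κ t x y (Fin.castLE (by norm_num : 5 ≤ 7) i) ^ e i =
      algebraMap k F c) : e = 0 := by
  obtain ⟨ht, ht1⟩ := KdS_t hk
  have h1 : M t x y (e 0) (e 1) (e 2) (e 3) (e 4) = algebraMap k F c := by
    rw [← he, Fin.prod_univ_five]
    rfl
  obtain ⟨a0, a1, a2, a3, a4⟩ := M_const ht ht1 h h1
  funext i
  fin_cases i
  · exact a0
  · exact a1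
  · exact a2
  · exact a3
  · exact a4

/-- `2` and `p` are multiplicatively independent -/
lemma G6S_hc [CharZero k] (κ : Fin 3) (e : Fin 7 → ℤ) (he : ∀ i : Fin 7, i.val < 5 → e i = 0)
    (h : ∏ i, G6S κ t x y i ^ e i = 1) : e = 0 := by
  have : CharZero F := charZero_of_injective_algebraMap (algebraMap k F).injective
  have e0 := he 0 (by decide)
  have e1 := he 1 (by decide)
  have e2 := he 2 (by decide)
  have e3 := he 3 (by decide)
  have e4 := he 4 (by decide)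
  rw [Fin.prod_univ_seven, e0, e1, e2, e3, e4] at h
  simp only [zpow_zero, one_mul] at h
  have h1 : (2 : F) ^ e 5 * (pr κ : F) ^ e 6 = 1 := h
  have h2 : e 5 = 0 ∧ e 6 = 0 := by
    fin_cases κ
    · have h3 : (2 : F) ^ e 5 * (3 : F) ^ e 6 * ((5 : ℕ) : F) ^ (0 : ℤ) = 1 := by
        rw [zpow_zero, mul_one]
        have : ((pr 0 : ℕ) : F) = 3 := by show ((3 : ℕ) : F) = 3; norm_num
        rw [← this]
        exact h1
      obtain ⟨a, b, -⟩ := X10.indep3 (by norm_num) (by norm_num) (by norm_num) h3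
      exact ⟨a, b⟩
    · have h3 : (2 : F) ^ e 5 * (3 : F) ^ e 6 * ((5 : ℕ) : F) ^ (0 : ℤ) = 1 := by
        rw [zpow_zero, mul_one]
        have : ((pr 1 : ℕ) : F) = 3 := by show ((3 : ℕ) : F) = 3; norm_num
        rw [← this]
        exact h1
      obtain ⟨a, b, -⟩ := X10.indep3 (by norm_num) (by norm_num) (by norm_num) h3
      exact ⟨a, b⟩
    · have h3 : (2 : F) ^ e 5 * (3 : F) ^ (0 : ℤ) * ((5 : ℕ) : F) ^ e 6 = 1 := by
        rw [zpow_zero, mul_one]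
        exact h1
      obtain ⟨a, -, b⟩ := X10.indep3 (by norm_num) (by norm_num) (by norm_num) h3
      exact ⟨a, b⟩
  obtain ⟨e5, e6⟩ := h2
  funext i
  fin_cases i
  · exact e0
  · exact e1
  · exact e2
  · exact e3
  · exact e4
  · exact e5
  · exact e6

end gens

section supp

open UEG (P0)
open WeierstrassCurve.Affine FK4
open TN (Wt Orb)

variable {k : Type*} [Field k] [DecidableEq k] [CharZero k] {F : Type*} [Field F] [Algebra k F]
  {x y : F} {t : k}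

/-- the generators are supported on the multiples of `P` -/
lemma G6S_supp {κ : Fin 3} (hk : KdS κ t) (hb : UE6.bb t ≠ 0)
    (hO : addOrderOf (P0 (UE6.cc t) hb) = 6) (hG : Generic (Wt (UE6.bb t) (UE6.cc t)) x y)
    (i : Fin 7) :
    Supp (AddSubgroup.zmultiples (P0 (UE6.cc t) hb)) x y (G6S κ t x y i) := by
  obtain ⟨ht, ht1⟩ := KdS_t hk
  have hs := UE6.supp6 ht ht1 hb hO hG
  fin_cases i
  · exact (hs _).mpr ⟨1, 1, 0, 0, 0, 0, one_ne_zero, by unfold N6.M; simp [G6S]⟩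
  · exact (hs _).mpr ⟨1, 0, 1, 0, 0, 0, one_ne_zero, by unfold N6.M; simp [G6S]⟩
  · exact (hs _).mpr ⟨1, 0, 0, 1, 0, 0, one_ne_zero, by unfold N6.M; simp [G6S]⟩
  · exact (hs _).mpr ⟨1, 0, 0, 0, 1, 0, one_ne_zero, by unfold N6.M; simp [G6S]⟩
  · exact (hs _).mpr ⟨1, 0, 0, 0, 0, 1, one_ne_zero, by unfold N6.M; simp [G6S]⟩
  · exact (hs _).mpr ⟨2, 0, 0, 0, 0, 0, two_ne_zero, by
      unfold N6.M
      rw [map_ofNat]
      simp [G6S]⟩
  · exact (hs _).mpr ⟨(pr κ : k), 0, 0, 0, 0, 0, pr_ne κ, by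
      unfold N6.M
      rw [map_natCast]
      simp [G6S]⟩

lemma Tc_getS {κ : Fin 3} {cls : List (Mo × Mo)} {f : F} (h : TcS κ cls t x y f) :
    ∃ p ∈ cls, Orb (ev (List.ofFn (G6S κ t x y)) p.1) f := by
  obtain ⟨c, hc, h1⟩ := h
  exact ⟨c, hc, by rw [ofFn_G6S]; exact h1⟩

/-- the unit equation in terms of the functions supported on the multiples of `P` -/
lemma hU_of {κ : Fin 3} (hk : KdS κ t) (hb : UE6.bb t ≠ 0)
    (hO : addOrderOf (P0 (UE6.cc t) hb) = 6) (hG : Generic (Wt (UE6.bb t) (UE6.cc t)) x y)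
    {cls : List (Mo × Mo)}
    (H : ∀ {c c' : k} (_ : c ≠ 0) (_ : c' ≠ 0) {a₀ a₁ a₂ a₃ a₄ b₀ b₁ b₂ b₃ b₄ : ℤ}
      (_ : algebraMap k F c * M t x y a₀ a₁ a₂ a₃ a₄ +
        algebraMap k F c' * M t x y b₀ b₁ b₂ b₃ b₄ = 1),
      (∃ s : k, algebraMap k F c * M t x y a₀ a₁ a₂ a₃ a₄ = algebraMap k F s) ∨
        TcS κ cls t x y (algebraMap k F c * M t x y a₀ a₁ a₂ a₃ a₄)) (f : F)
    (h1 : Supp (AddSubgroup.zmultiples (P0 (UE6.cc t) hb)) x y f)
    (h2 : Supp (AddSubgroup.zmultiples (P0 (UE6.cc t) hb)) x y (1 - f)) :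
    (∃ c : k, f = algebraMap k F c) ∨
      ∃ p ∈ cls, Orb (ev (List.ofFn (G6S κ t x y)) p.1) f := by
  obtain ⟨ht, ht1⟩ := KdS_t hk
  have hs := UE6.supp6 ht ht1 hb hO hG
  obtain ⟨d, a₀, a₁, a₂, a₃, a₄, hd, rfl⟩ := (hs _).mp h1
  obtain ⟨d', b₀, b₁, b₂, b₃, b₄, hd', h2'⟩ := (hs _).mp h2
  rcases H hd hd' (by rw [← h2']; ring) with h3 | h3
  · exact Or.inl h3
  · exact Or.inr (Tc_getS h3)

/-- `t = 1 / 3` -/
theorem hU0 (hk : KdS 0 t) (hb : UE6.bb t ≠ 0)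
    (hO : addOrderOf (P0 (UE6.cc t) hb) = 6) (hG : Generic (Wt (UE6.bb t) (UE6.cc t)) x y) (f : F)
    (h1 : Supp (AddSubgroup.zmultiples (P0 (UE6.cc t) hb)) x y f)
    (h2 : Supp (AddSubgroup.zmultiples (P0 (UE6.cc t) hb)) x y (1 - f)) :
    (∃ c : k, f = algebraMap k F c) ∨
      ∃ p ∈ clsS0, Orb (ev (List.ofFn (G6S 0 t x y)) p.1) f :=
  hU_of hk hb hO hG (unit_eqS0 hk (UE6.gen6 hG)) f h1 h2

/-- `t = -1 / 3` -/
theorem hU1 (hk : KdS 1 t) (hb : UE6.bb t ≠ 0)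
    (hO : addOrderOf (P0 (UE6.cc t) hb) = 6) (hG : Generic (Wt (UE6.bb t) (UE6.cc t)) x y) (f : F)
    (h1 : Supp (AddSubgroup.zmultiples (P0 (UE6.cc t) hb)) x y f)
    (h2 : Supp (AddSubgroup.zmultiples (P0 (UE6.cc t) hb)) x y (1 - f)) :
    (∃ c : k, f = algebraMap k F c) ∨
      ∃ p ∈ clsS1, Orb (ev (List.ofFn (G6S 1 t x y)) p.1) f :=
  hU_of hk hb hO hG (unit_eqS1 hk (UE6.gen6 hG)) f h1 h2

/-- `t = -1 / 5` -/
theorem hU2 (hk : KdS 2 t) (hb : UE6.bb t ≠ 0)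
    (hO : addOrderOf (P0 (UE6.cc t) hb) = 6) (hG : Generic (Wt (UE6.bb t) (UE6.cc t)) x y) (f : F)
    (h1 : Supp (AddSubgroup.zmultiples (P0 (UE6.cc t) hb)) x y f)
    (h2 : Supp (AddSubgroup.zmultiples (P0 (UE6.cc t) hb)) x y (1 - f)) :
    (∃ c : k, f = algebraMap k F c) ∨
      ∃ p ∈ clsS2, Orb (ev (List.ofFn (G6S 2 t x y)) p.1) f :=
  hU_of hk hb hO hG (unit_eqS2 hk (UE6.gen6 hG)) f h1 h2

theorem sols0' (hk : KdS 0 t) (h : G6 t x y) : Sols (List.ofFn (G6S 0 t x y)) clsS0 := by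
  rw [ofFn_G6S]; exact solsS0 hk h

theorem sols1' (hk : KdS 1 t) (h : G6 t x y) : Sols (List.ofFn (G6S 1 t x y)) clsS1 := by
  rw [ofFn_G6S]; exact solsS1 hk h

theorem sols2' (hk : KdS 2 t) (h : G6 t x y) : Sols (List.ofFn (G6S 2 t x y)) clsS2 := by
  rw [ofFn_G6S]; exact solsS2 hk h

lemma kdS0 (h : 3 * t = 1) : KdS 0 t :=
  ⟨fun _ => h, fun e => absurd e (by decide), fun e => absurd e (by decide)⟩

lemma kdS1 (h : 3 * t = -1) : KdS 1 t :=
  ⟨fun e => absurd e (by decide), fun _ => h, fun e => absurd e (by decide)⟩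

lemma kdS2 (h : 5 * t = -1) : KdS 2 t :=
  ⟨fun e => absurd e (by decide), fun e => absurd e (by decide), fun _ => h⟩

end supp

end Pool.Agent.N6S
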