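import Pool.Agent.Lib_helper60.N6.I
import Pool.Agent.Lib_helper60.X10.H

/-!
# The unit equation for a point of order six, `t = 1/3, -1/3, -1/5`, I: the enumeration
-/

set_option autoImplicit false
set_option linter.unusedSectionVars false

namespace Pool.Agent.N6S

open Pool.Agent.N6

/-- equality of the values at two points -/
def VES (w : Fin 6 → ℤ) (i j : Fin 6) : Prop :=
  S w i = S w j ∧ w (i + 3) = w (j + 3) ∧ (w (i + 5) - w (j + 5)) % 2 = 0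

instance (w : Fin 6 → ℤ) (i j : Fin 6) : Decidable (VES w i j) := by
  unfold VES; infer_instance

/-- vanishing of the first derivative; `κ = 0`: `t = 1/3`, `κ = 1`: `t = -1/3`, `κ = 2`:
`t = -1/5` -/
def FOcS (κ : Fin 3) (p q : ℤ) : Prop :=
  (κ = 0 → p = -q) ∧ (κ = 1 → q = 2 * p) ∧ (κ = 2 → q = 3 * p)

instance (κ : Fin 3) (p q : ℤ) : Decidable (FOcS κ p q) := by unfold FOcS; infer_instance

/-- vanishing of the second derivative -/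
def SOcS (κ : Fin 3) (a₀ a₁ a₂ a₃ a₄ : ℤ) : Prop :=
  (κ = 0 → 14 * a₀ + 6 * a₁ + 8 * a₂ + 17 * a₃ + 14 * a₄ = 0) ∧
  (κ = 1 → 10 * a₀ + 6 * a₁ + 4 * a₂ + 13 * a₃ + 10 * a₄ = 0) ∧
  (κ = 2 → 18 * a₀ + 10 * a₁ + 8 * a₂ + 23 * a₃ + 18 * a₄ = 0)

instance (κ : Fin 3) (a₀ a₁ a₂ a₃ a₄ : ℤ) : Decidable (SOcS κ a₀ a₁ a₂ a₃ a₄) := by
  unfold SOcS; infer_instance

/-- the conditions at the points where `w` takes the value one, with multiplicities `m` -/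
def GrpS (κ : Fin 3) (w m : Fin 6 → ℤ) : Prop :=
  (∀ i j, 0 < m i → 0 < m j → VES w i j) ∧
  (∀ i, 1 < m i → FOcS κ (w (i + 1) - w (i + 5)) (w (i + 2) - w (i + 4))) ∧
  (∀ i, 2 < m i → SOcS κ (w i - 2 * w (i + 1) + w (i + 2))
    (-w (i + 2) + w (i + 3) - w (i + 4) + w (i + 5)) (-w (i + 3) + w (i + 4))
    (w (i + 1) - w (i + 2) + w (i + 4) - w (i + 5)) (w (i + 2) - w (i + 4)))

instance (κ : Fin 3) (w m : Fin 6 → ℤ) : Decidable (GrpS κ w m) := by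
  unfold GrpS; infer_instance

/-- the solutions -/
def sA : List ((ℤ × ℤ × ℤ × ℤ × ℤ) × (ℤ × ℤ × ℤ × ℤ × ℤ)) :=
  [((0, 0, 2, 0, 0), (0, 1, 0, 1, 0)), ((0, 0, 2, 0, 0), (1, 0, 0, 0, 1)),
    ((0, 1, 0, 1, 0), (0, 0, 2, 0, 0)), ((0, 1, 0, 1, 0), (1, 0, 0, 0, 1)),
    ((1, 0, 0, 0, 1), (0, 0, 2, 0, 0)), ((1, 0, 0, 0, 1), (0, 1, 0, 1, 0))]

/-- the solutions -/
def solsIS (κ : Fin 3) : List ((ℤ × ℤ × ℤ × ℤ × ℤ) × (ℤ × ℤ × ℤ × ℤ × ℤ)) :=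
  if κ = 1 then ((0, 0, 0, 3, 0), (0, 3, 0, 0, 0)) :: ((0, 3, 0, 0, 0), (0, 0, 0, 3, 0)) :: sA
  else sA

/-- the solutions -/
def sB : List ((ℤ × ℤ × ℤ × ℤ × ℤ) × (ℤ × ℤ × ℤ × ℤ × ℤ)) :=
  [((-1, 1, 0, 0, 1), (-1, 0, 1, 1, 0)), ((-1, 0, 1, 1, 0), (-1, 1, 0, 0, 1)),
    ((1, 1, -1, 0, 0), (0, 0, -1, 1, 1)), ((0, 0, -1, 1, 1), (1, 1, -1, 0, 0)),
    ((1, 0, 0, 1, -1), (0, 1, 1, 0, -1)), ((0, 1, 1, 0, -1), (1, 0, 0, 1, -1))]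

/-- the solutions -/
def solsIIS (κ : Fin 3) : List ((ℤ × ℤ × ℤ × ℤ × ℤ) × (ℤ × ℤ × ℤ × ℤ × ℤ)) :=
  if κ = 0 then ((3, 0, -3, 3, 0), (0, 3, -3, 0, 3)) :: ((0, 3, -3, 0, 3), (3, 0, -3, 3, 0)) :: sB
  else if κ = 1 then sB else
  ((5, 0, -5, 1, 0), (0, 1, -5, 0, 5)) :: ((1, 0, -1, 5, 0), (0, 5, -1, 0, 1)) ::
    ((0, 1, -5, 0, 5), (5, 0, -5, 1, 0)) :: ((0, 5, -1, 0, 1), (1, 0, -1, 5, 0)) :: sB

/-- the three groups of conditions -/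
def Gr3S (κ : Fin 3) (e e' : Fin 6 → ℤ) : Prop :=
  GrpS κ e (mm e') ∧ GrpS κ e' (mm e) ∧ GrpS κ (fun i => e i - e' i) (fun i => -mm e i)

instance (κ : Fin 3) (e e' : Fin 6 → ℤ) : Decidable (Gr3S κ e e') := by
  unfold Gr3S; infer_instance

/-- the statement of the next lemma for one value -/
def EnIS (u : ℕ × ℕ × ℕ × ℕ × ℕ) : Prop := ∀ v ∈ L41, Dis u v → ∀ κ : Fin 3,
  Gr3S κ (eo (zc u)) (eo (zc v)) → (zc u, zc v) ∈ solsIS κ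

instance (u : ℕ × ℕ × ℕ × ℕ × ℕ) : Decidable (EnIS u) := by
  unfold EnIS; infer_instance

set_option maxRecDepth 100000 in
lemma enIS0 : ∀ u ∈ L41p 0, EnIS u := by decide +kernel

set_option maxRecDepth 100000 in
lemma enIS1 : ∀ u ∈ L41p 1, EnIS u := by decide +kernel

set_option maxRecDepth 100000 in
lemma enIS2 : ∀ u ∈ L41p 2, EnIS u := by decide +kernel

set_option maxRecDepth 100000 in
lemma enIS3 : ∀ u ∈ L41p 3, EnIS u := by decide +kernel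

set_option maxRecDepth 100000 in
lemma enIS4 : ∀ u ∈ L41p 4, EnIS u := by decide +kernel

lemma enumIS : ∀ κ : Fin 3, ∀ u ∈ L41, ∀ v ∈ L41, Dis u v → Gr3S κ (eo (zc u)) (eo (zc v)) →
    (zc u, zc v) ∈ solsIS κ := by
  intro κ u hu v hv hd
  rw [L41_eq, List.mem_append, List.mem_append, List.mem_append, List.mem_append] at hu
  rcases hu with hu | hu | hu | hu | hu
  exacts [enIS0 u hu v hv hd κ, enIS1 u hu v hv hd κ, enIS2 u hu v hv hd κ, enIS3 u hu v hv hd κ, enIS4 u hu v hv hd κ]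

/-- the statement of the next lemma for one value -/
def EnIIS (q : Fin 6 × Fin 6 × Fin 6 × Fin 6 × Fin 6) : Prop := ∀ a b c : Fin 5,
    (c : ℕ) ≤ a + b → (a : ℕ) + b ≤ c + 4 →
    Pr (nt q.1 (a + 1) (b + 1) q.2.1 q.2.2.1 (c + 1) (a + b - c + 1)) →
    ∀ d : Fin 5, (d : ℕ) ≤ a + b → (a : ℕ) + b ≤ d + 4 →
    Pr (nt q.1 (a + 1) (b + 1) q.2.2.2.1 q.2.2.2.2 (d + 1) (a + b - d + 1)) →
    ∀ κ : Fin 3,
    Gr3S κ (eo (nt q.1 (a + 1) (b + 1) q.2.1 q.2.2.1 (c + 1) (a + b - c + 1)))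
      (eo (nt q.1 (a + 1) (b + 1) q.2.2.2.1 q.2.2.2.2 (d + 1) (a + b - d + 1))) →
    (nt q.1 (a + 1) (b + 1) q.2.1 q.2.2.1 (c + 1) (a + b - c + 1),
      nt q.1 (a + 1) (b + 1) q.2.2.2.1 q.2.2.2.2 (d + 1) (a + b - d + 1)) ∈ solsIIS κ

instance (q : Fin 6 × Fin 6 × Fin 6 × Fin 6 × Fin 6) : Decidable (EnIIS q) := by
  unfold EnIIS; infer_instance

set_option maxRecDepth 100000 in
lemma enIIS0 : ∀ q ∈ P30p 0, EnIIS q := by decide +kernel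

set_option maxRecDepth 100000 in
lemma enIIS1 : ∀ q ∈ P30p 1, EnIIS q := by decide +kernel

set_option maxRecDepth 100000 in
lemma enIIS2 : ∀ q ∈ P30p 2, EnIIS q := by decide +kernel

set_option maxRecDepth 100000 in
lemma enIIS3 : ∀ q ∈ P30p 3, EnIIS q := by decide +kernel

set_option maxRecDepth 100000 in
lemma enIIS4 : ∀ q ∈ P30p 4, EnIIS q := by decide +kernel

set_option maxRecDepth 100000 in
lemma enIIS5 : ∀ q ∈ P30p 5, EnIIS q := by decide +kernel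

set_option maxRecDepth 100000 in
lemma enIIS6 : ∀ q ∈ P30p 6, EnIIS q := by decide +kernel

set_option maxRecDepth 100000 in
lemma enIIS7 : ∀ q ∈ P30p 7, EnIIS q := by decide +kernel

set_option maxRecDepth 100000 in
lemma enIIS8 : ∀ q ∈ P30p 8, EnIIS q := by decide +kernel

set_option maxRecDepth 100000 in
lemma enIIS9 : ∀ q ∈ P30p 9, EnIIS q := by decide +kernel

lemma enumIIS : ∀ κ : Fin 3, ∀ q ∈ P30, ∀ a b c d : Fin 5,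
    (c : ℕ) ≤ a + b → (a : ℕ) + b ≤ c + 4 → (d : ℕ) ≤ a + b → (a : ℕ) + b ≤ d + 4 →
    Pr (nt q.1 (a + 1) (b + 1) q.2.1 q.2.2.1 (c + 1) (a + b - c + 1)) →
    Pr (nt q.1 (a + 1) (b + 1) q.2.2.2.1 q.2.2.2.2 (d + 1) (a + b - d + 1)) →
    Gr3S κ (eo (nt q.1 (a + 1) (b + 1) q.2.1 q.2.2.1 (c + 1) (a + b - c + 1)))
      (eo (nt q.1 (a + 1) (b + 1) q.2.2.2.1 q.2.2.2.2 (d + 1) (a + b - d + 1))) →
    (nt q.1 (a + 1) (b + 1) q.2.1 q.2.2.1 (c + 1) (a + b - c + 1),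
      nt q.1 (a + 1) (b + 1) q.2.2.2.1 q.2.2.2.2 (d + 1) (a + b - d + 1)) ∈ solsIIS κ := by
  intro κ q hq a b c d h1 h2 h3 h4 h5 h6
  rw [P30_eq] at hq
  simp only [List.mem_append] at hq
  rcases hq with hq | hq | hq | hq | hq | hq | hq | hq | hq | hq
  exacts [enIIS0 q hq a b c h1 h2 h5 d h3 h4 h6 κ,
    enIIS1 q hq a b c h1 h2 h5 d h3 h4 h6 κ,
    enIIS2 q hq a b c h1 h2 h5 d h3 h4 h6 κ,
    enIIS3 q hq a b c h1 h2 h5 d h3 h4 h6 κ,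
    enIIS4 q hq a b c h1 h2 h5 d h3 h4 h6 κ,
    enIIS5 q hq a b c h1 h2 h5 d h3 h4 h6 κ,
    enIIS6 q hq a b c h1 h2 h5 d h3 h4 h6 κ,
    enIIS7 q hq a b c h1 h2 h5 d h3 h4 h6 κ,
    enIIS8 q hq a b c h1 h2 h5 d h3 h4 h6 κ,
    enIIS9 q hq a b c h1 h2 h5 d h3 h4 h6 κ]

end Pool.Agent.N6S
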