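import Pool.Agent.Lib_helper60.N6S.E

/-!
# The unit equation for a point of order six, `t = 1/3, -1/3, -1/5`, II: from the local conditions
to the enumeration
-/

set_option autoImplicit false
set_option linter.unusedSectionVars false

namespace Pool.Agent.N6S

open Pool.Agent.N6

variable {k : Type*} [Field k] {t : k}

/-- the three values of `t` -/
def KdS (κ : Fin 3) (t : k) : Prop :=
  (κ = 0 → 3 * t = 1) ∧ (κ = 1 → 3 * t = -1) ∧ (κ = 2 → 5 * t = -1)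

lemma KdS_t [CharZero k] {κ : Fin 3} (hk : KdS κ t) : t ≠ 0 ∧ t + 1 ≠ 0 := by
  obtain ⟨k0, k1, k2⟩ := hk
  fin_cases κ
  · have h := k0 rfl
    constructor
    · rintro rfl; norm_num at h
    · intro h1
      have : (-3 : k) = 1 := by linear_combination h - 3 * h1
      norm_num at this
  · have h := k1 rfl
    constructor
    · rintro rfl; norm_num at h
    · intro h1
      have : (-3 : k) = -1 := by linear_combination h - 3 * h1
      norm_num at this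
  · have h := k2 rfl
    constructor
    · rintro rfl; norm_num at h
    · intro h1
      have : (-5 : k) = -1 := by linear_combination h - 5 * h1
      norm_num at this

lemma sq_zpow {a : k} (n : ℤ) : (a ^ n) ^ 2 = (a ^ 2) ^ n := by
  rw [← zpow_natCast, ← zpow_mul, ← zpow_natCast, ← zpow_mul, mul_comm]

lemma KdS_indep [CharZero k] {κ : Fin 3} (hk : KdS κ t) {p q : ℤ}
    (h : t ^ p * (t + 1) ^ q = 1) : p = 0 ∧ q = 0 := by
  have h2 : (2 : k) ≠ 0 := two_ne_zero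
  have h3 : (3 : k) ≠ 0 := three_ne_zero
  have h5 : (5 : k) ≠ 0 := by norm_num
  have h' : (t ^ 2) ^ p * ((t + 1) ^ 2) ^ q = 1 := by
    rw [← sq_zpow, ← sq_zpow, ← mul_pow, h, one_pow]
  obtain ⟨k0, k1, k2⟩ := hk
  fin_cases κ
  · have hh := k0 rfl
    have e1 : t ^ 2 = 3 ^ (-2 : ℤ) := by
      have : t = 3⁻¹ := eq_inv_of_mul_eq_one_left (by linear_combination hh)
      rw [this]; norm_num
    have e2 : (t + 1) ^ 2 = 2 ^ (4 : ℤ) * 3 ^ (-2 : ℤ) := by
      have : t = 3⁻¹ := eq_inv_of_mul_eq_one_left (by linear_combination hh)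
      rw [this]; norm_num
    rw [e1, e2, mul_zpow, ← zpow_mul, ← zpow_mul, ← zpow_mul] at h'
    have h4 : (2 : k) ^ (4 * q) * 3 ^ (-2 * p + -2 * q) * ((5 : ℕ) : k) ^ (0 : ℤ) = 1 := by
      rw [zpow_zero, mul_one, zpow_add₀ h3, ← h']; ring
    obtain ⟨a, b, -⟩ := X10.indep3 (p := 5) (by norm_num) (by norm_num) (by norm_num) h4
    omega
  · have hh := k1 rfl
    have e0 : t = -3⁻¹ := by
      have : -t = 3⁻¹ := eq_inv_of_mul_eq_one_left (by linear_combination -hh)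
      rw [← this, neg_neg]
    have e1 : t ^ 2 = 3 ^ (-2 : ℤ) := by rw [e0]; norm_num
    have e2 : (t + 1) ^ 2 = 2 ^ (2 : ℤ) * 3 ^ (-2 : ℤ) := by rw [e0]; norm_num
    rw [e1, e2, mul_zpow, ← zpow_mul, ← zpow_mul, ← zpow_mul] at h'
    have h4 : (2 : k) ^ (2 * q) * 3 ^ (-2 * p + -2 * q) * ((5 : ℕ) : k) ^ (0 : ℤ) = 1 := by
      rw [zpow_zero, mul_one, zpow_add₀ h3, ← h']; ring
    obtain ⟨a, b, -⟩ := X10.indep3 (p := 5) (by norm_num) (by norm_num) (by norm_num) h4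
    omega
  · have hh := k2 rfl
    have e0 : t = -5⁻¹ := by
      have : -t = 5⁻¹ := eq_inv_of_mul_eq_one_left (by linear_combination -hh)
      rw [← this, neg_neg]
    have e1 : t ^ 2 = 5 ^ (-2 : ℤ) := by rw [e0]; norm_num
    have e2 : (t + 1) ^ 2 = 2 ^ (4 : ℤ) * 5 ^ (-2 : ℤ) := by rw [e0]; norm_num
    rw [e1, e2, mul_zpow, ← zpow_mul, ← zpow_mul, ← zpow_mul] at h'
    have h4 : (2 : k) ^ (4 * q) * 3 ^ (0 : ℤ) * ((5 : ℕ) : k) ^ (-2 * p + -2 * q) = 1 := by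
      push_cast
      rw [zpow_zero, mul_one, zpow_add₀ h5, ← h']; ring
    obtain ⟨a, -, b⟩ := X10.indep3 (p := 5) (by norm_num) (by norm_num) (by norm_num) h4
    omega

lemma val_VES [CharZero k] {κ : Fin 3} (hk : KdS κ t)
    {w : Fin 6 → ℤ} {i j : Fin 6} (h : val t w i = val t w j) : VES w i j := by
  obtain ⟨ht, ht1⟩ := KdS_t hk
  have e : ∀ i, val t w i = t ^ (S w i + w (i + 3)) * (t + 1) ^ S w i * (-1) ^ w (i + 5) := by
    intro i
    unfold val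
    rw [show w (i + 1) + w (i + 2) + w (i + 4) + w (i + 5) = S w i from rfl,
      show t ^ 2 + t = t * (t + 1) by ring, mul_zpow, zpow_add₀ ht]
    ring
  rw [e, e] at h
  have h3 : (t ^ (S w i + w (i + 3))) ^ 2 * ((t + 1) ^ S w i) ^ 2 =
      (t ^ (S w j + w (j + 3))) ^ 2 * ((t + 1) ^ S w j) ^ 2 := by
    have := congrArg (fun z => z ^ 2) h
    simp only [mul_pow, sq_one, mul_one] at this
    exact this
  have h4 : t ^ (2 * (S w i + w (i + 3) - (S w j + w (j + 3)))) *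
      (t + 1) ^ (2 * (S w i - S w j)) = 1 := by
    rw [mul_comm 2 (S w i + w (i + 3) - (S w j + w (j + 3))), mul_comm 2 (S w i - S w j),
      zpow_mul, zpow_mul, zpow_sub₀ ht, zpow_sub₀ ht1, show (2 : ℤ) = ((2 : ℕ) : ℤ) from rfl,
      zpow_natCast, zpow_natCast, div_pow, div_pow, div_mul_div_comm, h3, div_self]
    exact mul_ne_zero (pow_ne_zero 2 (zpow_ne_zero _ ht)) (pow_ne_zero 2 (zpow_ne_zero _ ht1))
  obtain ⟨h5, h6⟩ := KdS_indep hk h4
  have h7 : S w i = S w j := by omega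
  have h8 : w (i + 3) = w (j + 3) := by omega
  refine ⟨h7, h8, par (k := k) ?_⟩
  rw [h7, h8] at h
  exact mul_left_cancel₀ (mul_ne_zero (zpow_ne_zero _ ht) (zpow_ne_zero _ ht1)) h

lemma fo_FOS [CharZero k] {κ : Fin 3} (hk : KdS κ t) {w : Fin 6 → ℤ} {i : Fin 6}
    (h : fo t w i = 0) : FOcS κ (w (i + 1) - w (i + 5)) (w (i + 2) - w (i + 4)) := by
  obtain ⟨p, hp⟩ : ∃ p : ℤ, p = w (i + 1) - w (i + 5) := ⟨_, rfl⟩
  obtain ⟨q, hq⟩ : ∃ q : ℤ, q = w (i + 2) - w (i + 4) := ⟨_, rfl⟩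
  have h' : (1 - t) * (p : k) + 2 * t * q = 0 := by
    rw [hp, hq]; push_cast; exact h
  rw [← hp, ← hq]
  refine ⟨?_, ?_, ?_⟩
  · rintro rfl
    have hi := hk.1 rfl
    have : ((p : ℤ) : k) = ((-q : ℤ) : k) := by
      push_cast; linear_combination (3 / 2 : k) * h' + (1 / 2 * p - q : k) * hi
    exact_mod_cast this
  · rintro rfl
    have hi := hk.2.1 rfl
    have : ((q : ℤ) : k) = ((2 * p : ℤ) : k) := by
      push_cast; linear_combination (-3 / 2 : k) * h' + (-1 / 2 * p + q : k) * hi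
    exact_mod_cast this
  · rintro rfl
    have hi := hk.2.2 rfl
    have : ((q : ℤ) : k) = ((3 * p : ℤ) : k) := by
      push_cast; linear_combination (-5 / 2 : k) * h' + (-1 / 2 * p + q : k) * hi
    exact_mod_cast this

lemma so_SOS [CharZero k] {κ : Fin 3} (hk : KdS κ t)
    {w : Fin 6 → ℤ} {i : Fin 6} (h : so t w i = 0) :
    SOcS κ (w i - 2 * w (i + 1) + w (i + 2))
      (-w (i + 2) + w (i + 3) - w (i + 4) + w (i + 5)) (-w (i + 3) + w (i + 4))
      (w (i + 1) - w (i + 2) + w (i + 4) - w (i + 5)) (w (i + 2) - w (i + 4)) := by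
  have h3 : (3 : k) ≠ 0 := three_ne_zero
  have h5 : (5 : k) ≠ 0 := by norm_num
  obtain ⟨a₀, g0⟩ : ∃ p : ℤ, p = w i - 2 * w (i + 1) + w (i + 2) := ⟨_, rfl⟩
  obtain ⟨a₁, g1⟩ : ∃ p : ℤ, p = -w (i + 2) + w (i + 3) - w (i + 4) + w (i + 5) := ⟨_, rfl⟩
  obtain ⟨a₂, g2⟩ : ∃ p : ℤ, p = -w (i + 3) + w (i + 4) := ⟨_, rfl⟩
  obtain ⟨a₃, g3⟩ : ∃ p : ℤ, p = w (i + 1) - w (i + 2) + w (i + 4) - w (i + 5) := ⟨_, rfl⟩
  obtain ⟨a₄, g4⟩ : ∃ p : ℤ, p = w (i + 2) - w (i + 4) := ⟨_, rfl⟩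
  have h' : 2 * (t ^ 2 + 2 * t) * (a₀ : k) + 2 * t * a₁ + 2 * (t ^ 2 + t) * a₂ +
      (2 * (t ^ 2 + t) + 3 * t) * a₃ + (4 * t + 2 * t ^ 2) * a₄ = 0 := by
    rw [g0, g1, g2, g3, g4]; push_cast; exact h
  rw [← g0, ← g1, ← g2, ← g3, ← g4]
  refine ⟨?_, ?_, ?_⟩
  · rintro rfl
    have hi := hk.1 rfl
    have hi' : t = 1 / 3 := by rw [eq_div_iff h3]; linear_combination hi
    rw [hi'] at h'
    have : ((14 * a₀ + 6 * a₁ + 8 * a₂ + 17 * a₃ + 14 * a₄ : ℤ) : k) = ((0 : ℤ) : k) := by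
      push_cast; linear_combination (9 : k) * h'
    exact_mod_cast this
  · rintro rfl
    have hi := hk.2.1 rfl
    have hi' : t = -1 / 3 := by rw [eq_div_iff h3]; linear_combination hi
    rw [hi'] at h'
    have : ((10 * a₀ + 6 * a₁ + 4 * a₂ + 13 * a₃ + 10 * a₄ : ℤ) : k) = ((0 : ℤ) : k) := by
      push_cast; linear_combination (-9 : k) * h'
    exact_mod_cast this
  · rintro rfl
    have hi := hk.2.2 rfl
    have hi' : t = -1 / 5 := by rw [eq_div_iff h5]; linear_combination hi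
    rw [hi'] at h'
    have : ((18 * a₀ + 10 * a₁ + 8 * a₂ + 23 * a₃ + 18 * a₄ : ℤ) : k) = ((0 : ℤ) : k) := by
      push_cast; linear_combination (-25 : k) * h'
    exact_mod_cast this

lemma LC_GrpS [CharZero k] {κ : Fin 3} (hk : KdS κ t) {c : k}
    {w w' : Fin 6 → ℤ} (h : ∀ i, LC t c w w' i) : GrpS κ w (mm w') := by
  refine ⟨?_, ?_, ?_⟩
  · intro i j hi hj
    have h1 := (h i).vl hi
    have h2 := (h j).vl hj
    have hc : c ≠ 0 := by
      rintro rfl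
      rw [zero_mul] at h1
      exact zero_ne_one h1
    exact val_VES hk (mul_left_cancel₀ hc (h1.trans h2.symm))
  · intro i hi
    exact fo_FOS hk ((h i).fo hi)
  · intro i hi
    exact so_SOS hk ((h i).so hi)

lemma GrpS_congr {κ : Fin 3} {w m m' : Fin 6 → ℤ} (h : GrpS κ w m)
    (hm : ∀ i, 0 < m' i → m i = m' i) : GrpS κ w m' := by
  obtain ⟨h1, h2, h3⟩ := h
  refine ⟨?_, ?_, ?_⟩
  · intro i j hi hj
    exact h1 i j (by rw [hm i hi]; exact hi) (by rw [hm j hj]; exact hj)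
  · intro i hi
    exact h2 i (by rw [hm i (by omega)]; exact hi)
  · intro i hi
    exact h3 i (by rw [hm i (by omega)]; exact hi)

lemma AC_Gr3S [CharZero k] {κ : Fin 3} (hk : KdS κ t) {c₀ c₁ : k}
    {e e' : Fin 6 → ℤ} (h : AC t c₀ c₁ e e') : Gr3S κ e e' := by
  refine ⟨LC_GrpS hk h.one, LC_GrpS hk h.zero, ?_⟩
  refine GrpS_congr (LC_GrpS hk h.inf) ?_
  intro i hi
  have h1 := (h.one i).alt
  have h2 : mm (fun i => -e' i) i = - mm e' i := by
    show -e' (i + 1) + -e' (i - 1) - 2 * -e' i = -(e' (i + 1) + e' (i - 1) - 2 * e' i)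
    ring
  show mm (fun i => -e' i) i = -mm e i
  rw [h2]
  have hi' : 0 < -mm e i := hi
  unfold Alt at h1
  omega

end Pool.Agent.N6S
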