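import Pool.Agent.Lib_helper60.N6S.FF

/-!
# The unit equation for a point of order six, `t = 1/3, -1/3, -1/5`, III: reduction to the finite
lists
-/

set_option autoImplicit false
set_option linter.unusedSectionVars false

namespace Pool.Agent.N6S

open Pool.Agent.TN Pool.Agent.N6

attribute [local irreducible] eo zc solsIS solsIIS L41 GrpS

lemma core1S {κ : Fin 3} {e e' : Fin 6 → ℤ} (h0 : e 0 = 0) (h0' : e' 0 = 0)
    (hA : ∀ i, Alt (mm e i) (mm e' i)) (hG : Gr3S κ e e') (hm : mm e 0 < 0)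
    (hp : ∀ j, j ≠ 0 → 0 ≤ mm e j) : ∃ u v, (u, v) ∈ solsIS κ ∧ e = eo u ∧ e' = eo v := by
  have p1 := hp 1 (by decide)
  have p2 := hp 2 (by decide)
  have p3 := hp 3 (by decide)
  have p4 := hp 4 (by decide)
  have p5 := hp 5 (by decide)
  obtain ⟨A0, B0⟩ := alt_neg (hA 0) hm
  obtain ⟨A1, B1, C1, D1⟩ := alt_pos (hA 1) p1
  obtain ⟨A2, B2, C2, D2⟩ := alt_pos (hA 2) p2
  obtain ⟨A3, B3, C3, D3⟩ := alt_pos (hA 3) p3
  obtain ⟨A4, B4, C4, D4⟩ := alt_pos (hA 4) p4
  obtain ⟨A5, B5, C5, D5⟩ := alt_pos (hA 5) p5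
  have s := sumz e
  have s' := sumz e'
  have r := cgr e h0
  have r' := cgr e' h0'
  obtain ⟨n1, g1⟩ := ef (m := 6) p1 (by clear D1 D2 D3 D4 D5; omega)
  obtain ⟨n2, g2⟩ := ef (m := 6) p2 (by clear D1 D2 D3 D4 D5; omega)
  obtain ⟨n3, g3⟩ := ef (m := 6) p3 (by clear D1 D2 D3 D4 D5; omega)
  obtain ⟨n4, g4⟩ := ef (m := 6) p4 (by clear D1 D2 D3 D4 D5; omega)
  obtain ⟨n5, g5⟩ := ef (m := 6) p5 (by clear D1 D2 D3 D4 D5; omega)
  obtain ⟨m1, k1⟩ := ef (m := 6) A1 (by clear D1 D2 D3 D4 D5; omega)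
  obtain ⟨m2, k2⟩ := ef (m := 6) A2 (by clear D1 D2 D3 D4 D5; omega)
  obtain ⟨m3, k3⟩ := ef (m := 6) A3 (by clear D1 D2 D3 D4 D5; omega)
  obtain ⟨m4, k4⟩ := ef (m := 6) A4 (by clear D1 D2 D3 D4 D5; omega)
  obtain ⟨m5, k5⟩ := ef (m := 6) A5 (by clear D1 D2 D3 D4 D5; omega)
  have E1 : e = eo (zc ((n1 : ℕ), (n2 : ℕ), (n3 : ℕ), (n4 : ℕ), (n5 : ℕ))) := by
    apply eo_spec h0 <;> unfold zc <;> assumption
  have E2 : e' = eo (zc ((m1 : ℕ), (m2 : ℕ), (m3 : ℕ), (m4 : ℕ), (m5 : ℕ))) := by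
    apply eo_spec h0' <;> unfold zc <;> assumption
  rw [g1, g2, g3, g4, g5] at s r
  rw [k1, k2, k3, k4, k5, A0] at s'
  rw [k1, k2, k3, k4, k5] at r'
  rw [g1, k1] at D1
  rw [g2, k2] at D2
  rw [g3, k3] at D3
  rw [g4, k4] at D4
  rw [g5, k5] at D5
  clear g1 g2 g3 g4 g5 k1 k2 k3 k4 k5 p1 p2 p3 p4 p5 A1 A2 A3 A4 A5 B1 B2 B3 B4 B5 C1 C2 C3 C4 C5
  have hu : ((n1 : ℕ), (n2 : ℕ), (n3 : ℕ), (n4 : ℕ), (n5 : ℕ)) ∈ L41 := by
    clear D1 D2 D3 D4 D5
    exact mem41 n1 n2 n3 n4 n5 (by omega) (by omega) (by omega)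
  have hv : ((m1 : ℕ), (m2 : ℕ), (m3 : ℕ), (m4 : ℕ), (m5 : ℕ)) ∈ L41 := by
    clear D1 D2 D3 D4 D5
    exact mem41 m1 m2 m3 m4 m5 (by omega) (by omega) (by omega)
  refine ⟨_, _, enumIS κ _ hu _ hv ⟨?_, ?_, ?_, ?_, ?_, ?_⟩ ?_, E1, E2⟩
  · show (n1 : ℕ) + n2 + n3 + n4 + n5 = m1 + m2 + m3 + m4 + m5
    clear D1 D2 D3 D4 D5
    omega
  · show (n1 : ℕ) = 0 ∨ (m1 : ℕ) = 0
    clear s s' r r'
    omega
  · show (n2 : ℕ) = 0 ∨ (m2 : ℕ) = 0
    clear s s' r r'
    omega
  · show (n3 : ℕ) = 0 ∨ (m3 : ℕ) = 0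
    clear s s' r r'
    omega
  · show (n4 : ℕ) = 0 ∨ (m4 : ℕ) = 0
    clear s s' r r'
    omega
  · show (n5 : ℕ) = 0 ∨ (m5 : ℕ) = 0
    clear s s' r r'
    omega
  · rw [← E1, ← E2]; exact hG

lemma core2S {κ : Fin 3} {e e' : Fin 6 → ℤ} (h0 : e 0 = 0) (h0' : e' 0 = 0)
    (hA : ∀ i, Alt (mm e i) (mm e' i)) (hG : Gr3S κ e e') (hm : mm e 0 < 0)
    {q : Fin 6 × Fin 6 × Fin 6 × Fin 6 × Fin 6} (hq : q ∈ P30) (q1 : mm e q.1 < 0)
    (q2 : 0 < mm e q.2.1) (q3 : 0 < mm e q.2.2.1) (q4 : 0 < mm e' q.2.2.2.1)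
    (q5 : 0 < mm e' q.2.2.2.2) : ∃ u v, (u, v) ∈ solsIIS κ ∧ e = eo u ∧ e' = eo v := by
  obtain ⟨A0, B0⟩ := alt_neg (hA 0) hm
  obtain ⟨A1, B1⟩ := alt_neg (hA q.1) q1
  obtain ⟨A2, B2⟩ := alt_pos' (hA q.2.1) q2
  obtain ⟨A3, B3⟩ := alt_pos' (hA q.2.2.1) q3
  obtain ⟨A4, B4⟩ := alt_pos'' (hA q.2.2.2.1) q4
  obtain ⟨A5, B5⟩ := alt_pos'' (hA q.2.2.2.2) q5
  have s := sumz e
  have s' := sumz e'
  rw [sumq q hq] at s s'
  have r := cgr e h0
  have r' := cgr e' h0'
  have cv := cover q hq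
  obtain ⟨a, ga⟩ := ef (m := 5) (z := -mm e 0 - 1) (by omega) (by omega)
  obtain ⟨b, gb⟩ := ef (m := 5) (z := -mm e q.1 - 1) (by omega) (by omega)
  obtain ⟨c, gc⟩ := ef (m := 5) (z := mm e q.2.1 - 1) (by omega) (by omega)
  obtain ⟨d, gd⟩ := ef (m := 5) (z := mm e' q.2.2.2.1 - 1) (by omega) (by omega)
  have e1 : ∀ r, mm e r = nv 0 q.1 (a + 1) (b + 1) q.2.1 q.2.2.1 (c + 1) (a + b - c + 1) r := by
    refine nv_spec (by push_cast; omega) (by push_cast; omega) (by push_cast; omega)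
      (by omega) ?_
    intro r h1 h2 h3 h4
    rcases cv r with h | h | h | h | h | h
    · exact absurd h h1
    · exact absurd h h2
    · exact absurd h h3
    · exact absurd h h4
    · rw [h]; omega
    · rw [h]; omega
  have e2 : ∀ r, mm e' r =
      nv 0 q.1 (a + 1) (b + 1) q.2.2.2.1 q.2.2.2.2 (d + 1) (a + b - d + 1) r := by
    refine nv_spec (by push_cast; omega) (by push_cast; omega) (by push_cast; omega)
      (by omega) ?_
    intro r h1 h2 h3 h4
    rcases cv r with h | h | h | h | h | h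
    · exact absurd h h1
    · exact absurd h h2
    · rw [h]; omega
    · rw [h]; omega
    · exact absurd h h3
    · exact absurd h h4
  have f1 : e = eo (nt q.1 (a + 1) (b + 1) q.2.1 q.2.2.1 (c + 1) (a + b - c + 1)) :=
    eo_spec h0 (e1 1) (e1 2) (e1 3) (e1 4) (e1 5)
  have f2 : e' = eo (nt q.1 (a + 1) (b + 1) q.2.2.2.1 q.2.2.2.2 (d + 1) (a + b - d + 1)) :=
    eo_spec h0' (e2 1) (e2 2) (e2 3) (e2 4) (e2 5)
  refine ⟨_, _, enumIIS κ q hq a b c d (by omega) (by omega) (by omega) (by omega) ?_ ?_ ?_,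
    f1, f2⟩
  · unfold Pr nt
    simp only
    rw [← e1 1, ← e1 2, ← e1 3, ← e1 4, ← e1 5]
    omega
  · unfold Pr nt
    simp only
    rw [← e2 1, ← e2 2, ← e2 3, ← e2 4, ← e2 5]
    omega
  · rw [← f1, ← f2]; exact hG

variable {k : Type*} [Field k] {F : Type*} [Field F] [Algebra k F] {t : k} {x y : F}

/-- the properties of the set of solutions -/
structure TTS (κ : Fin 3) (t : k) (x y : F) (T : F → Prop) : Prop where
  inv : ∀ f : F, f ≠ 0 → f ≠ 1 → T f⁻¹ → T f
  sub : ∀ f : F, f ≠ 0 → f ≠ 1 → T (1 - f) → T f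
  sol : ∀ (i : Fin 6) (x' y' : F), G6 t x' y' → (∀ j, X t x' y' j = X t x y (j + i)) →
    ∀ (c c' : k) (u v : ℤ × ℤ × ℤ × ℤ × ℤ), ((u, v) ∈ solsIS κ ∨ (u, v) ∈ solsIIS κ) →
    AC t c c' (eo u) (eo v) → algebraMap k F c * mon t x' y' (eo u) +
      algebraMap k F c' * mon t x' y' (eo v) = 1 → T (algebraMap k F c * mon t x' y' (eo u))

/-- one pole, or no group of size one -/
lemma stepS [CharZero k] {κ : Fin 3} (hk : KdS κ t)
    (h : G6 t x y) {T : F → Prop} (hT : TTS κ t x y T) {c c' : k} (hc : c ≠ 0) (hc' : c' ≠ 0)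
    {e e' : Fin 6 → ℤ}
    (hu : algebraMap k F c * mon t x y e + algebraMap k F c' * mon t x y e' = 1)
    (hnc : ¬ ∀ i j, e i = e j) (hnc' : ¬ ∀ i j, e' i = e' j) (i : Fin 6) (hm : mm e i < 0)
    (hp : (∀ j, j ≠ i → 0 ≤ mm e j) ∨ NS e e') : T (algebraMap k F c * mon t x y e) := by
  obtain ⟨ht, ht1⟩ := KdS_t hk
  obtain ⟨x', y', -, hR⟩ := rot ht ht1 h i.val
  obtain ⟨h', hX⟩ := hR inferInstance
  have hi : Fin.ofNat 6 i.val = i := by
    apply Fin.ext
    simp only [Fin.ofNat]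
    exact Nat.mod_eq_of_lt i.isLt
  rw [hi] at hX
  obtain ⟨K, hK⟩ : ∃ K : k, K = -((t ^ 2 + t) ^ 4 * t) := ⟨_, rfl⟩
  have hK0 : K ≠ 0 := by
    rw [hK]; exact neg_ne_zero.mpr (mul_ne_zero (pow_ne_zero 4 (b_ne ht ht1)) ht)
  have m1 := mon_rot ht ht1 h' i hX e (e i)
  have m2 := mon_rot ht ht1 h' i hX e' (e' i)
  rw [← hK] at m1 m2
  obtain ⟨w, hw⟩ : ∃ w : Fin 6 → ℤ, w = fun l => e (l + i) - e i := ⟨_, rfl⟩
  obtain ⟨w', hw'⟩ : ∃ w : Fin 6 → ℤ, w = fun l => e' (l + i) - e' i := ⟨_, rfl⟩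
  have e1 : ∀ j, mm w j = mm e (j + i) := fun j => by rw [hw]; exact mm_rot e (e i) i j
  have e2 : ∀ j, mm w' j = mm e' (j + i) := fun j => by rw [hw']; exact mm_rot e' (e' i) i j
  have w0 : w 0 = 0 := by rw [hw]; simp only [zero_add, sub_self]
  have w0' : w' 0 = 0 := by rw [hw']; simp only [zero_add, sub_self]
  rw [← hw] at m1
  rw [← hw'] at m2
  have f1 : algebraMap k F c * mon t x y e = algebraMap k F (c * K ^ e i) * mon t x' y' w := by
    rw [m1, map_mul, mul_assoc]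
  have f2 : algebraMap k F c' * mon t x y e' = algebraMap k F (c' * K ^ e' i) * mon t x' y' w' := by
    rw [m2, map_mul, mul_assoc]
  rw [f1, f2] at hu
  rw [f1]
  have n1 : ¬ ∀ a b, w a = w b := by
    intro hall
    apply hnc
    intro a b
    have := hall (a - i) (b - i)
    rw [hw] at this
    simp only [sub_add_cancel] at this
    omega
  have n2 : ¬ ∀ a b, w' a = w' b := by
    intro hall
    apply hnc'
    intro a b
    have := hall (a - i) (b - i)
    rw [hw'] at this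
    simp only [sub_add_cancel] at this
    omega
  have hA := all_cond ht ht1 h' (mul_ne_zero hc (zpow_ne_zero _ hK0))
    (mul_ne_zero hc' (zpow_ne_zero _ hK0)) hu n1 n2
  have hG := AC_Gr3S hk hA
  have hm0 : mm w 0 < 0 := by rw [e1, zero_add]; exact hm
  have key : ∃ u v, ((u, v) ∈ solsIS κ ∨ (u, v) ∈ solsIIS κ) ∧ w = eo u ∧ w' = eo v := by
    rcases hp with hp | hp
    · obtain ⟨u, v, h1, h2, h3⟩ := core1S w0 w0' (fun j => (hA.one j).alt) hG hm0 (by
        intro j hj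
        rw [e1]
        apply hp
        intro h0
        apply hj
        have : ∀ i j : Fin 6, j + i = i → j = 0 := by decide
        exact this i j h0)
      exact ⟨u, v, Or.inl h1, h2, h3⟩
    · have hN : NS w w' := by
        obtain ⟨N1, N2, N3⟩ := hp
        refine ⟨?_, ?_, ?_⟩
        · intro j hj
          rw [e1] at hj
          obtain ⟨l, l1, l2⟩ := N1 _ hj
          refine ⟨l - i, ?_, by rw [e1, sub_add_cancel]; exact l2⟩
          rintro rfl
          exact l1 (sub_add_cancel l i).symm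
        · intro j hj
          rw [e1] at hj
          obtain ⟨l, l1, l2⟩ := N2 _ hj
          refine ⟨l - i, ?_, by rw [e1, sub_add_cancel]; exact l2⟩
          rintro rfl
          exact l1 (sub_add_cancel l i).symm
        · intro j hj
          rw [e2] at hj
          obtain ⟨l, l1, l2⟩ := N3 _ hj
          refine ⟨l - i, ?_, by rw [e2, sub_add_cancel]; exact l2⟩
          rintro rfl
          exact l1 (sub_add_cancel l i).symm
      obtain ⟨q, hq, q1, q2, q3, q4, q5⟩ := NS_q (fun j => (hA.one j).alt) hm0 hN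
      obtain ⟨u, v, h1, h2, h3⟩ := core2S w0 w0' (fun j => (hA.one j).alt) hG hm0 hq q1 q2 q3 q4 q5
      exact ⟨u, v, Or.inr h1, h2, h3⟩
  obtain ⟨u, v, h1, h2, h3⟩ := key
  rw [h2] at hA hu ⊢
  rw [h3] at hA hu
  exact hT.sol i x' y' h' hX _ _ u v h1 hA hu

/-- **reduction of the unit equation to the finite lists** -/
theorem masterS [CharZero k] {κ : Fin 3} (hk : KdS κ t)
    (h : G6 t x y) {T : F → Prop} (hT : TTS κ t x y T) {c c' : k} (hc : c ≠ 0) (hc' : c' ≠ 0)
    {e e' : Fin 6 → ℤ}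
    (hu : algebraMap k F c * mon t x y e + algebraMap k F c' * mon t x y e' = 1) :
    (∃ s : k, algebraMap k F c * mon t x y e = algebraMap k F s) ∨
      T (algebraMap k F c * mon t x y e) := by
  obtain ⟨ht, ht1⟩ := KdS_t hk
  by_cases hnc : ∀ i j, e i = e j
  · left
    have he : mon t x y e = (∏ i, X t x y i) ^ (e 0) := by
      unfold mon
      rw [← Finset.prod_zpow]
      exact Finset.prod_congr rfl fun i _ => by rw [hnc i 0]
    refine ⟨c * (-((t ^ 2 + t) ^ 4 * t)) ^ e 0, ?_⟩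
    rw [he, X_prod ht ht1 h, map_mul, map_zpow₀]
  by_cases hnc' : ∀ i j, e' i = e' j
  · left
    have he : mon t x y e' = (∏ i, X t x y i) ^ (e' 0) := by
      unfold mon
      rw [← Finset.prod_zpow]
      exact Finset.prod_congr rfl fun i _ => by rw [hnc' i 0]
    refine ⟨1 - c' * (-((t ^ 2 + t) ^ 4 * t)) ^ e' 0, ?_⟩
    rw [map_sub, map_one, map_mul, map_zpow₀, ← X_prod ht ht1 h, ← he]
    linear_combination hu
  right
  have hA := all_cond ht ht1 h hc hc' hu hnc hnc'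
  have f0 : algebraMap k F c * mon t x y e ≠ 0 :=
    mul_ne_zero ((_root_.map_ne_zero _).mpr hc) (mon_ne ht ht1 h e)
  have g0 : algebraMap k F c' * mon t x y e' ≠ 0 :=
    mul_ne_zero ((_root_.map_ne_zero _).mpr hc') (mon_ne ht ht1 h e')
  have f1 : algebraMap k F c * mon t x y e ≠ 1 := by
    intro h'; apply g0; linear_combination hu - h'
  have g1 : algebraMap k F c' * mon t x y e' ≠ 1 := by
    intro h'; apply f0; linear_combination hu - h'
  have hall := fun i => (hA.one i).alt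
  -- the existence of a pole
  have ex3 : ∃ i, mm e i < 0 := by
    by_contra hne
    push Not at hne
    apply hnc
    have s := sumz e
    have a0 := hne 0
    have a1 := hne 1
    have a2 := hne 2
    have a3 := hne 3
    have a4 := hne 4
    have a5 := hne 5
    have o0 : mm e 0 = e 1 + e 5 - 2 * e 0 := rfl
    have o1 : mm e 1 = e 2 + e 0 - 2 * e 1 := rfl
    have o2 : mm e 2 = e 3 + e 1 - 2 * e 2 := rfl
    have o3 : mm e 3 = e 4 + e 2 - 2 * e 3 := rfl
    have o4 : mm e 4 = e 5 + e 3 - 2 * e 4 := rfl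
    have o5 : mm e 5 = e 0 + e 4 - 2 * e 5 := rfl
    have b1 : e 1 = e 0 := by omega
    have b2 : e 2 = e 0 := by omega
    have b3 : e 3 = e 0 := by omega
    have b4 : e 4 = e 0 := by omega
    have b5 : e 5 = e 0 := by omega
    intro i j
    fin_cases i <;> fin_cases j <;> simp <;> omega
  by_cases hN : NS e e'
  · obtain ⟨i, hi⟩ := ex3
    exact stepS hk h hT hc hc' hu hnc hnc' i hi (Or.inr hN)
  unfold NS at hN
  by_cases h1 : ∀ i, mm e i < 0 → ∃ j, j ≠ i ∧ mm e j < 0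
  swap
  · push Not at h1
    obtain ⟨i, hi, hj⟩ := h1
    exact stepS hk h hT hc hc' hu hnc hnc' i hi (Or.inl hj)
  by_cases h2 : ∀ i, 0 < mm e i → ∃ j, j ≠ i ∧ 0 < mm e j
  swap
  · -- one zero of `f`
    push Not at h2
    obtain ⟨i, hi, hj⟩ := h2
    have hh : algebraMap k F c⁻¹ * mon t x y (fun l => -e l) +
        algebraMap k F (-(c' / c)) * mon t x y (fun l => e' l - e l) = 1 := by
      rw [mon_neg, mon_sub ht ht1 h, map_inv₀, map_neg, map_div₀]
      have := mon_ne ht ht1 h e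
      have cF : algebraMap k F c ≠ 0 := (_root_.map_ne_zero _).mpr hc
      field_simp
      linear_combination -hu
    have r := stepS hk h hT (inv_ne_zero hc) (neg_ne_zero.mpr (div_ne_zero hc' hc)) hh (by
        intro hall'
        apply hnc
        intro a b
        have := hall' a b
        omega) (by
        intro hall'
        have a2 : ¬ ∀ i j, e i - e' i = e j - e' j := by
          intro h3
          have h4 := (hA.inf i).alt
          have h5 := (hA.one i).alt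
          have b1 := h3 (i + 1) i
          have b2 := h3 (i - 1) i
          have o : mm e i = e (i + 1) + e (i - 1) - 2 * e i := rfl
          have o' : mm e' i = e' (i + 1) + e' (i - 1) - 2 * e' i := rfl
          unfold Alt at h5
          omega
        apply a2
        intro a b
        have := hall' a b
        omega) i (by
        show -e (i + 1) + -e (i - 1) - 2 * -e i < 0
        have o : mm e i = e (i + 1) + e (i - 1) - 2 * e i := rfl
        omega) (Or.inl (by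
        intro j hji
        have := hj j hji
        show 0 ≤ -e (j + 1) + -e (j - 1) - 2 * -e j
        have o : mm e j = e (j + 1) + e (j - 1) - 2 * e j := rfl
        omega))
    have fe : algebraMap k F c⁻¹ * mon t x y (fun l => -e l) =
        (algebraMap k F c * mon t x y e)⁻¹ := by
      rw [mon_neg, map_inv₀, mul_inv]
    rw [fe] at r
    exact hT.inv _ f0 f1 r
  -- one zero of `g`
  have h3 : ¬ ∀ i, 0 < mm e' i → ∃ j, j ≠ i ∧ 0 < mm e' j := fun h3 => hN ⟨h1, h2, h3⟩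
  push Not at h3
  obtain ⟨i, hi, hj⟩ := h3
  have hh : algebraMap k F c'⁻¹ * mon t x y (fun l => -e' l) +
      algebraMap k F (-(c / c')) * mon t x y (fun l => e l - e' l) = 1 := by
    rw [mon_neg, mon_sub ht ht1 h, map_inv₀, map_neg, map_div₀]
    have := mon_ne ht ht1 h e'
    have cF : algebraMap k F c' ≠ 0 := (_root_.map_ne_zero _).mpr hc'
    field_simp
    linear_combination -hu
  have r := stepS hk h hT (inv_ne_zero hc') (neg_ne_zero.mpr (div_ne_zero hc hc')) hh (by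
      intro hall'
      apply hnc'
      intro a b
      have := hall' a b
      omega) (by
      intro h3
      have h5 := (hA.one i).alt
      have b1 := h3 (i + 1) i
      have b2 := h3 (i - 1) i
      have o : mm e i = e (i + 1) + e (i - 1) - 2 * e i := rfl
      have o' : mm e' i = e' (i + 1) + e' (i - 1) - 2 * e' i := rfl
      unfold Alt at h5
      omega) i (by
      show -e' (i + 1) + -e' (i - 1) - 2 * -e' i < 0
      have o : mm e' i = e' (i + 1) + e' (i - 1) - 2 * e' i := rfl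
      omega) (Or.inl (by
      intro j hji
      have := hj j hji
      show 0 ≤ -e' (j + 1) + -e' (j - 1) - 2 * -e' j
      have o : mm e' j = e' (j + 1) + e' (j - 1) - 2 * e' j := rfl
      omega))
  have fe : algebraMap k F c'⁻¹ * mon t x y (fun l => -e' l) =
      (algebraMap k F c' * mon t x y e')⁻¹ := by
    rw [mon_neg, map_inv₀, mul_inv]
  rw [fe] at r
  have r2 := hT.inv _ g0 g1 r
  apply hT.sub _ f0 f1
  rw [show 1 - algebraMap k F c * mon t x y e = algebraMap k F c' * mon t x y e' by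
    linear_combination -hu]
  exact r2

end Pool.Agent.N6S
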